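import Mathlib

/-!
Holes in finite sets which are covered by few sets in convex position.
-/

set_option autoImplicit false

namespace Pool.Agent.H70.CC

section

variable {E : Type*} [AddCommGroup E] [Module ℝ E] [DecidableEq E]

/-- `C` is in convex position. -/
def Cvx (C : Finset E) : Prop :=
  ∀ p ∈ C, p ∉ convexHull ℝ ((C.erase p : Finset E) : Set E)

/-- `H` is a `k`-hole of `P`. -/
def Hole (k : ℕ) (P H : Finset E) : Prop :=
  H ⊆ P ∧ H.card = k ∧ Cvx H ∧ ∀ p ∈ P, p ∈ convexHull ℝ (H : Set E) → p ∈ H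

theorem Cvx.mono {A B : Finset E} (h : Cvx B) (hAB : A ⊆ B) : Cvx A := by
  intro p hp hm
  refine h p (hAB hp) (convexHull_mono ?_ hm)
  exact_mod_cast Finset.erase_subset_erase p hAB

/-- A finite set of reals has a threshold below which there are exactly `k` elements. -/
theorem threshold (S : Finset ℝ) : ∀ k : ℕ, 1 ≤ k → k ≤ S.card →
    ∃ a ∈ S, (S.filter (fun x => x ≤ a)).card = k := by
  induction S using Finset.induction_on_max with
  | empty =>
    intro k h1 h2
    simp at h2
    omega
  | insert a s ha ih =>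
    intro k h1 h2
    have hna : a ∉ s := fun h => lt_irrefl _ (ha a h)
    rw [Finset.card_insert_of_notMem hna] at h2
    rcases Nat.lt_or_ge s.card k with h | h
    · refine ⟨a, Finset.mem_insert_self _ _, ?_⟩
      rw [Finset.filter_true_of_mem, Finset.card_insert_of_notMem hna]
      · omega
      · intro x hx
        rcases Finset.mem_insert.1 hx with rfl | hx
        · exact le_rfl
        · exact (ha x hx).le
    · obtain ⟨b, hb, hc⟩ := ih k h1 h
      refine ⟨b, Finset.mem_insert_of_mem hb, ?_⟩
      rw [Finset.filter_insert, if_neg (not_le.2 (ha b hb)), hc]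

omit [DecidableEq E] in
/-- The lowest `k` points of a finite set. -/
theorem lowest {f : E →ₗ[ℝ] ℝ} {C : Finset E} (hf : Set.InjOn f (C : Set E)) {k : ℕ} (h1 : 1 ≤ k)
    (h2 : k ≤ C.card) : ∃ a : ℝ, (C.filter (fun x => f x ≤ a)).card = k := by
  obtain ⟨a, -, ha⟩ := threshold (C.image f) k h1 (by rwa [Finset.card_image_of_injOn hf])
  refine ⟨a, ?_⟩
  rw [← ha, Finset.filter_image, Finset.card_image_of_injOn]
  exact hf.mono fun x hx => by
    have := Finset.mem_coe.1 hx
    exact Finset.mem_coe.2 (Finset.mem_filter.1 this).1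

omit [DecidableEq E] in
theorem hull_gt {f : E →ₗ[ℝ] ℝ} {B : Finset E} {a : ℝ} (h : ∀ x ∈ B, a < f x) {q : E}
    (hq : q ∈ convexHull ℝ (B : Set E)) : a < f q := by
  have h1 : convexHull ℝ (B : Set E) ⊆ {w | a < f w} :=
    convexHull_min (fun x hx => h x (by exact_mod_cast hx)) (convex_halfSpace_gt f.isLinear a)
  exact h1 hq

omit [DecidableEq E] in
theorem hull_le {f : E →ₗ[ℝ] ℝ} {B : Finset E} {a : ℝ} (h : ∀ x ∈ B, f x ≤ a) {q : E}
    (hq : q ∈ convexHull ℝ (B : Set E)) : f q ≤ a := by
  have h1 : convexHull ℝ (B : Set E) ⊆ {w | f w ≤ a} :=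
    convexHull_min (fun x hx => h x (by exact_mod_cast hx)) (convex_halfSpace_le f.isLinear a)
  exact h1 hq

omit [DecidableEq E] in
/-- Among `k (q + 1)` points there are `k` whose hull avoids `q` given points. -/
theorem block (f : E →ₗ[ℝ] ℝ) (k : ℕ) : ∀ (n : ℕ) (Q C : Finset E), Q.card ≤ n →
    Set.InjOn f (C : Set E) → k * (Q.card + 1) ≤ C.card →
    ∃ B ⊆ C, B.card = k ∧ ∀ q ∈ Q, q ∉ convexHull ℝ (B : Set E) := by
  rcases Nat.eq_zero_or_pos k with rfl | hk
  · intro n Q C _ _ _
    exact ⟨∅, Finset.empty_subset _, rfl, fun q _ h => by simp at h⟩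
  intro n
  induction n with
  | zero =>
    intro Q C hn hf hc
    have hQ : Q = ∅ := Finset.card_eq_zero.1 (Nat.le_zero.1 hn)
    subst hQ
    obtain ⟨B, hB, hBk⟩ := Finset.exists_subset_card_eq (show k ≤ C.card by simpa using hc)
    exact ⟨B, hB, hBk, fun q hq => absurd hq (Finset.notMem_empty q)⟩
  | succ n ih =>
    intro Q C hn hf hc
    have hkC : k ≤ C.card := le_trans (Nat.le_mul_of_pos_right k (Nat.succ_pos _)) hc
    obtain ⟨a, ha⟩ := lowest hf hk hkC
    by_cases hq : ∃ q ∈ Q, f q ≤ a
    · obtain ⟨q0, hq0, hq1⟩ := hq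
      set Q' := Q.filter (fun x => a < f x) with hQ'
      set C' := C.filter (fun x => a < f x) with hC'
      have hlt : Q'.card < Q.card := by
        refine Finset.card_lt_card ⟨Finset.filter_subset _ _, fun h => ?_⟩
        exact absurd (Finset.mem_filter.1 (h hq0)).2 (not_lt.2 hq1)
      have hsum : (C.filter (fun x => f x ≤ a)).card + C'.card = C.card := by
        rw [hC', ← Finset.card_filter_add_card_filter_not (s := C) (fun x => f x ≤ a)]
        simp only [not_le]
      have hC2 : k * (Q'.card + 1) ≤ C'.card := by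
        have h3 : k * (Q'.card + 1) + k ≤ k * (Q.card + 1) := by
          nlinarith
        omega
      obtain ⟨B, hB, hBk, hBq⟩ := ih Q' C' (by omega)
        (hf.mono (by exact_mod_cast Finset.filter_subset _ _)) hC2
      refine ⟨B, hB.trans (Finset.filter_subset _ _), hBk, fun q hq2 hm => ?_⟩
      by_cases h4 : a < f q
      · exact hBq q (Finset.mem_filter.2 ⟨hq2, h4⟩) hm
      · exact h4 (hull_gt (fun x hx => (Finset.mem_filter.1 (hB hx)).2) hm)
    · push Not at hq
      refine ⟨C.filter (fun x => f x ≤ a), Finset.filter_subset _ _, ha, fun q hq2 hm => ?_⟩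
      exact absurd (hull_le (fun x hx => (Finset.mem_filter.1 hx).2) hm) (not_le.2 (hq q hq2))

/-- A functional which is injective on a finite set. -/
theorem exists_inj (C : Finset E) : ∃ f : E →ₗ[ℝ] ℝ, Set.InjOn f (C : Set E) := by
  obtain ⟨f, hf⟩ := Module.exists_dual_forall_apply_ne_zero (K := ℝ)
    (fun i : {x : C × C // (x.1 : E) ≠ x.2} => (i.1.1 : E) - (i.1.2 : E))
    (fun i => sub_ne_zero.2 i.2)
  refine ⟨f, fun x hx y hy hxy => ?_⟩
  by_contra hne
  have := hf ⟨(⟨x, by exact_mod_cast hx⟩, ⟨y, by exact_mod_cast hy⟩), hne⟩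
  simp only [map_sub] at this
  exact this (sub_eq_zero.2 hxy)

/-- A point of a set in convex position is extreme. -/
theorem notMem_hull {C : Finset E} (hC : Cvx C) {H : Set E} {p : E} (hp : p ∈ C)
    (hH : H ⊆ convexHull ℝ (C : Set E)) (hpH : p ∉ H) : p ∉ convexHull ℝ H := by
  have key : Convex ℝ (convexHull ℝ (C : Set E) \ {p}) := by
    have hins : (C : Set E) = insert p ((C.erase p : Finset E) : Set E) := by
      rw [← Finset.coe_insert, Finset.insert_erase hp]
    have aux : ∀ x ∈ convexHull ℝ (C : Set E), x ≠ p → ∃ u ∈ convexHull ℝ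
        ((C.erase p : Finset E) : Set E), ∃ s t : ℝ, 0 < t ∧ s + t = 1 ∧ x = s • p + t • u := by
      intro x hx hxp
      rcases (C.erase p).eq_empty_or_nonempty with h0 | h0
      · rw [hins, h0] at hx
        simp at hx
        exact absurd hx hxp
      · rw [hins, convexHull_insert (by exact_mod_cast h0)] at hx
        obtain ⟨y, hy, u, hu, hxu⟩ := mem_convexJoin.1 hx
        rw [Set.mem_singleton_iff.1 hy] at hxu
        obtain ⟨s, t, hs, ht, hst, rfl⟩ := hxu
        refine ⟨u, hu, s, t, lt_of_le_of_ne ht fun h => hxp ?_, hst, rfl⟩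
        rw [← h] at hst
        rw [← h, zero_smul, add_zero, show s = 1 by linarith, one_smul]
    intro x hx y hy a b ha hb hab
    refine ⟨(convex_convexHull ℝ _) hx.1 hy.1 ha hb hab, fun h => ?_⟩
    rw [Set.mem_singleton_iff] at h
    obtain ⟨u, hu, s, t, ht, hst, hxu⟩ := aux x hx.1 hx.2
    obtain ⟨v, hv, s', t', ht', hst', hyv⟩ := aux y hy.1 hy.2
    have hc : 0 < a * t + b * t' := by
      rcases ha.lt_or_eq with h1 | h1
      · have := mul_pos h1 ht
        have := mul_nonneg hb ht'.le
        linarith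
      · have hb1 : b = 1 := by linarith
        rw [hb1, ← h1]
        linarith
    have e1 : (a * t + b * t') • p = (a * t) • u + (b * t') • v := by
      have e2 : a • x + b • y = (a * s + b * s') • p + ((a * t) • u + (b * t') • v) := by
        rw [hxu, hyv]
        simp only [smul_add, smul_smul, add_smul]
        abel
      rw [h] at e2
      have e3 : (1 : ℝ) • p = (a * s + b * s') • p + (a * t + b * t') • p := by
        rw [← add_smul]
        congr 1
        have : a * (s + t) + b * (s' + t') = 1 := by rw [hst, hst']; linarith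
        linarith
      rw [one_smul] at e3
      exact add_left_cancel (e3.symm.trans e2)
    refine hC p hp ?_
    have e4 : p = ((a * t) / (a * t + b * t')) • u + ((b * t') / (a * t + b * t')) • v := by
      have := congrArg (fun z => (a * t + b * t')⁻¹ • z) e1
      simp only [smul_smul, smul_add] at this
      rw [inv_mul_cancel₀ hc.ne', one_smul] at this
      rw [this, div_eq_inv_mul, div_eq_inv_mul]
    have hm := (convex_convexHull ℝ _) hu hv (div_nonneg (mul_nonneg ha ht.le) hc.le)
      (div_nonneg (mul_nonneg hb ht'.le) hc.le)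
      (by rw [← add_div, div_self hc.ne'])
    rw [← e4] at hm
    exact hm
  have h1 : convexHull ℝ H ⊆ convexHull ℝ (C : Set E) \ {p} :=
    convexHull_min (fun x hx => ⟨hH hx, fun h => hpH ((Set.mem_singleton_iff.1 h) ▸ hx)⟩) key
  exact fun h => (h1 h).2 rfl

/-- A large set which is covered by `r` sets in convex position has a `k`-hole. -/
theorem main (k : ℕ) : ∀ (r : ℕ) (P : Finset E) (C : Fin r → Finset E), (∀ j, Cvx (C j)) →
    (∀ p ∈ P, ∃ j, p ∈ C j) → r.factorial * (k + 1) ^ r < P.card →
    ∃ H, (∃ j, H ⊆ C j) ∧ Hole k P H := by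
  classical
  intro r
  induction r with
  | zero =>
    intro P C _ hP hcard
    have : P = ∅ := Finset.eq_empty_of_forall_notMem fun p hp => (hP p hp).elim fun j _ => j.elim0
    rw [this] at hcard
    simp at hcard
  | succ r ih =>
    intro P C hC hP hcard
    obtain ⟨j, hj⟩ : ∃ j, r.factorial * (k + 1) ^ (r + 1) < (P ∩ C j).card := by
      by_contra hno
      push Not at hno
      have h1 : P ⊆ Finset.univ.biUnion (fun j => P ∩ C j) := by
        intro p hp
        obtain ⟨j, hj⟩ := hP p hp
        exact Finset.mem_biUnion.2 ⟨j, Finset.mem_univ _, Finset.mem_inter.2 ⟨hp, hj⟩⟩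
      have h2 : P.card ≤ ∑ j : Fin (r + 1), (P ∩ C j).card :=
        (Finset.card_le_card h1).trans Finset.card_biUnion_le
      have h3 : ∑ j : Fin (r + 1), (P ∩ C j).card ≤ (r + 1) * (r.factorial * (k + 1) ^ (r + 1)) := by
        have := Finset.sum_le_card_nsmul (Finset.univ : Finset (Fin (r + 1)))
          (fun j => (P ∩ C j).card) _ (fun j _ => hno j)
        simpa using this
      rw [Nat.factorial_succ] at hcard
      have : (r + 1) * (r.factorial * (k + 1) ^ (r + 1)) = (r + 1) * r.factorial * (k + 1) ^ (r + 1) := by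
        ring
      omega
    set K := P ∩ C j with hK
    have hKc : Cvx K := (hC j).mono Finset.inter_subset_right
    set Q := P.filter (fun p => p ∈ convexHull ℝ (K : Set E) ∧ p ∉ K) with hQ
    obtain ⟨f, hf⟩ := exists_inj K
    by_cases hcase : k * (Q.card + 1) ≤ K.card
    · obtain ⟨B, hB, hBk, hBq⟩ := block f k Q.card Q K le_rfl hf hcase
      refine ⟨B, ⟨j, hB.trans Finset.inter_subset_right⟩, hB.trans Finset.inter_subset_left, hBk,
        hKc.mono hB, fun p hp hm => ?_⟩
      have hpK : p ∈ K := by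
        by_contra hpK
        exact hBq p (Finset.mem_filter.2 ⟨hp, convexHull_mono (by exact_mod_cast hB) hm, hpK⟩) hm
      by_contra hpB
      refine hKc p hpK (convexHull_mono ?_ hm)
      intro x hx
      have hx' : x ∈ B := by exact_mod_cast hx
      have hxp : x ≠ p := by
        rintro rfl
        exact hpB hx'
      exact Finset.mem_coe.2 (Finset.mem_erase.2 ⟨hxp, hB hx'⟩)
    · have hcov : ∀ q ∈ Q, ∃ i, q ∈ C (j.succAbove i) := by
        intro q hq
        obtain ⟨hq1, -, hq2⟩ := Finset.mem_filter.1 hq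
        obtain ⟨i, hi⟩ := hP q hq1
        have hij : i ≠ j := fun h => hq2 (Finset.mem_inter.2 ⟨hq1, h ▸ hi⟩)
        obtain ⟨i', hi'⟩ := Fin.exists_succAbove_eq hij
        exact ⟨i', by rw [hi']; exact hi⟩
      have hQc : r.factorial * (k + 1) ^ r < Q.card := by
        by_contra hno
        push Not at hno hcase
        rcases Nat.eq_zero_or_pos r with h0 | h0
        · subst h0
          have hQe : Q = ∅ := Finset.eq_empty_of_forall_notMem fun q hq =>
            (hcov q hq).elim fun i _ => i.elim0
          rw [hQe] at hcase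
          simp at hj hcase
          omega
        · have hG : k + 1 ≤ r.factorial * (k + 1) ^ r := by
            calc k + 1 = 1 * (k + 1) ^ 1 := by ring
              _ ≤ r.factorial * (k + 1) ^ r :=
                Nat.mul_le_mul (Nat.factorial_pos r) (Nat.pow_le_pow_right (Nat.succ_pos k) h0)
          have e1 : r.factorial * (k + 1) ^ (r + 1) = (r.factorial * (k + 1) ^ r) * k +
              r.factorial * (k + 1) ^ r := by ring
          have e2 : k * (Q.card + 1) ≤ (r.factorial * (k + 1) ^ r) * k + k := by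
            nlinarith
          omega
      obtain ⟨H, ⟨i, hHi⟩, hH1, hH2, hH3, hH4⟩ := ih Q (fun i => C (j.succAbove i))
        (fun i => hC _) hcov hQc
      have hHK : (H : Set E) ⊆ convexHull ℝ (K : Set E) := fun x hx =>
        (Finset.mem_filter.1 (hH1 (by exact_mod_cast hx))).2.1
      refine ⟨H, ⟨_, hHi⟩, hH1.trans (Finset.filter_subset _ _), hH2, hH3, fun p hp hm => ?_⟩
      by_cases hpK : p ∈ K
      · exact absurd hm (notMem_hull hKc hpK hHK fun h =>
          (Finset.mem_filter.1 (hH1 (by exact_mod_cast h))).2.2 hpK)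
      · exact hH4 p (Finset.mem_filter.2 ⟨hp, convexHull_min hHK (convex_convexHull ℝ _) hm, hpK⟩) hm

/-- Many pairwise disjoint holes. -/
theorem many (k r : ℕ) (f : E →ₗ[ℝ] ℝ) : ∀ (m : ℕ) (P : Finset E) (C : Fin r → Finset E),
    Set.InjOn f (P : Set E) → (∀ j, Cvx (C j)) → (∀ p ∈ P, ∃ j, p ∈ C j) →
    m * (r.factorial * (k + 1) ^ r + 1) ≤ P.card →
    ∃ H : Fin m → Finset E, (∀ i, (∃ j, H i ⊆ C j) ∧ Hole k P (H i)) ∧
      ∀ i j, i ≠ j → Disjoint (convexHull ℝ (H i : Set E)) (convexHull ℝ (H j : Set E)) := by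
  classical
  intro m
  induction m with
  | zero =>
    intro P C _ _ _ _
    exact ⟨fun i => i.elim0, fun i => i.elim0, fun i => i.elim0⟩
  | succ m ih =>
    intro P C hf hC hP hcard
    set N := r.factorial * (k + 1) ^ r with hN
    have hcard' : m * (N + 1) + (N + 1) ≤ P.card := by
      have : (m + 1) * (N + 1) = m * (N + 1) + (N + 1) := by ring
      omega
    obtain ⟨a, ha⟩ := lowest hf (show 1 ≤ N + 1 by omega) (show N + 1 ≤ P.card by omega)
    set P0 := P.filter (fun x => f x ≤ a) with hP0
    set P1 := P.filter (fun x => a < f x) with hP1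
    have hsum : P0.card + P1.card = P.card := by
      rw [hP0, hP1, ← Finset.card_filter_add_card_filter_not (s := P) (fun x => f x ≤ a)]
      simp only [not_le]
    obtain ⟨H0, h00, h01, h02, h03, h04⟩ := main k r P0 C hC
      (fun p hp => hP p (Finset.mem_filter.1 hp).1) (by omega)
    obtain ⟨H, hH, hd⟩ := ih P1 C (hf.mono (by exact_mod_cast Finset.filter_subset _ _)) hC
      (fun p hp => hP p (Finset.mem_filter.1 hp).1) (by omega)
    have hle : ∀ q ∈ convexHull ℝ (H0 : Set E), f q ≤ a := fun q hq =>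
      hull_le (fun x hx => (Finset.mem_filter.1 (h01 hx)).2) hq
    have hgt : ∀ i, ∀ q ∈ convexHull ℝ (H i : Set E), a < f q := fun i q hq =>
      hull_gt (fun x hx => (Finset.mem_filter.1 ((hH i).2.1 hx)).2) hq
    have hdis : ∀ i, Disjoint (convexHull ℝ (H0 : Set E)) (convexHull ℝ (H i : Set E)) := fun i =>
      Set.disjoint_left.2 fun q h1 h2 => absurd (hle q h1) (not_le.2 (hgt i q h2))
    refine ⟨Fin.cons H0 H, ?_, ?_⟩
    · intro i
      refine Fin.cases ?_ (fun i => ?_) i
      · rw [Fin.cons_zero]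
        exact ⟨h00, h01.trans (Finset.filter_subset _ _), h02, h03, fun p hp hm =>
          h04 p (Finset.mem_filter.2 ⟨hp, hle p hm⟩) hm⟩
      · rw [Fin.cons_succ]
        obtain ⟨g0, g1, g2, g3, g4⟩ := hH i
        exact ⟨g0, g1.trans (Finset.filter_subset _ _), g2, g3, fun p hp hm =>
          g4 p (Finset.mem_filter.2 ⟨hp, hgt i p hm⟩) hm⟩
    · intro i j
      refine Fin.cases ?_ (fun i => ?_) i <;> refine Fin.cases ?_ (fun j => ?_) j
      · intro h
        exact absurd rfl h
      · intro _
        rw [Fin.cons_zero, Fin.cons_succ]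
        exact hdis j
      · intro _
        rw [Fin.cons_zero, Fin.cons_succ]
        exact (hdis i).symm
      · intro h
        rw [Fin.cons_succ, Fin.cons_succ]
        exact hd i j fun h' => h (by rw [h'])

end

end Pool.Agent.H70.CC
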