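import Pool.Agent.H70.CC.Geo

/-!
A positive proportion of the subsets: averaging over the subsets with `N` elements.
-/

set_option autoImplicit false

namespace Pool.Agent.H70.CC

/-- Double counting: if every subset of `C` with `N` elements contains a member of `F`, and the members of
`F` have `a` elements, then `F` has many members. -/
theorem count_le {α : Type*} [DecidableEq α] (C : Finset α) (F : Finset (Finset α)) {N a : ℕ}
    (haN : a ≤ N) (hF : ∀ S ∈ F, S ⊆ C ∧ S.card = a) (X : Finset (Finset α))
    (hX : ∀ Y ∈ X, Y ⊆ C ∧ Y.card = N) (hcov : ∀ Y ∈ X, ∃ S ∈ F, S ⊆ Y) :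
    X.card * C.card.choose a ≤ F.card * (C.card.choose N * N.choose a) := by
  have h1 : X.card ≤ ∑ S ∈ F, (X.filter (fun Y => S ⊆ Y)).card := by
    have : X ⊆ F.biUnion (fun S => X.filter (fun Y => S ⊆ Y)) := by
      intro Y hY
      obtain ⟨S, hS, hSY⟩ := hcov Y hY
      exact Finset.mem_biUnion.2 ⟨S, hS, Finset.mem_filter.2 ⟨hY, hSY⟩⟩
    exact (Finset.card_le_card this).trans Finset.card_biUnion_le
  have h2 : ∀ S ∈ F, (X.filter (fun Y => S ⊆ Y)).card ≤ (C.card - a).choose (N - a) := by
    intro S hS
    obtain ⟨hSC, hSa⟩ := hF S hS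
    rw [← hSa, ← Finset.card_sdiff_of_subset hSC, ← Finset.card_powersetCard]
    refine Finset.card_le_card_of_injOn (fun Y => Y \ S) ?_ ?_
    · intro Y hY
      obtain ⟨h3, h4⟩ := Finset.mem_filter.1 (Finset.mem_coe.1 hY)
      obtain ⟨h5, h6⟩ := hX Y h3
      refine Finset.mem_coe.2 (Finset.mem_powersetCard.2 ⟨Finset.sdiff_subset_sdiff h5 le_rfl, ?_⟩)
      rw [Finset.card_sdiff_of_subset h4, h6]
    · intro Y hY Z hZ hYZ
      obtain ⟨-, h4⟩ := Finset.mem_filter.1 (Finset.mem_coe.1 hY)
      obtain ⟨-, h5⟩ := Finset.mem_filter.1 (Finset.mem_coe.1 hZ)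
      have h6 : Y \ S = Z \ S := hYZ
      rw [← Finset.sdiff_union_of_subset h4, ← Finset.sdiff_union_of_subset h5, h6]
  have h3 : X.card ≤ F.card * (C.card - a).choose (N - a) := by
    refine h1.trans ?_
    have := Finset.sum_le_card_nsmul F (fun S => (X.filter (fun Y => S ⊆ Y)).card)
      ((C.card - a).choose (N - a)) h2
    rwa [smul_eq_mul] at this
  rcases Nat.lt_or_ge C.card N with hlt | hge
  · have : X = ∅ := by
      refine Finset.eq_empty_of_forall_notMem fun Y hY => ?_
      obtain ⟨h4, h5⟩ := hX Y hY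
      have := Finset.card_le_card h4
      omega
    rw [this]
    simp
  · have h4 := Nat.choose_mul (n := C.card) haN
    calc X.card * C.card.choose a ≤ F.card * (C.card - a).choose (N - a) * C.card.choose a :=
          Nat.mul_le_mul_right _ h3
      _ = F.card * (C.card.choose a * (C.card - a).choose (N - a)) := by ring
      _ = F.card * (C.card.choose N * N.choose a) := by rw [← h4]

variable {E : Type*} [AddCommGroup E] [Module ℝ E] [DecidableEq E]

open Classical in
/-- The subsets of `C` with `k` elements which are holes of `P`. -/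
noncomputable def holes (k : ℕ) (P C : Finset E) : Finset (Finset E) :=
  (C.powersetCard k).filter (fun H => Hole k P H)

open Classical in
/-- The subsets of `C` with `d + 1` elements such that the number of further points of `P` in the simplex is
positive and in none of the intervals `[v i, K * v i]`. -/
noncomputable def exceptional (d c K : ℕ) (v : Fin c → ℕ) (P C : Finset E) : Finset (Finset E) :=
  (C.powersetCard (d + 1)).filter
    (fun S => cnt P S ≠ 0 ∧ ∀ i, ¬ (v i ≤ cnt P S ∧ cnt P S ≤ K * v i))

theorem dichotomy {d : ℕ} (hodd : Odd d) [FiniteDimensional ℝ E]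
    (hd : Module.finrank ℝ E = d) (k c K : ℕ) : ∃ M : ℕ, ∀ (P C : Finset E) (v : Fin c → ℕ),
      GenPos d P → C ⊆ P → M ≤ C.card →
      C.card.choose k ≤ M * (holes k P C).card ∨
        C.card.choose (d + 1) ≤ M * (exceptional d c K v P C).card := by
  classical
  obtain ⟨L, hL⟩ := exists_len d K
  obtain ⟨N0, hN0⟩ := exists_hole (E := E) hodd hd (c * L) k
  set N := N0 + k + (d + 1) with hN
  refine ⟨N + 2 * N.choose k + 2 * N.choose (d + 1), fun P C v hP hCP hC => ?_⟩
  set F := holes k P C with hF
  set G := exceptional d c K v P C with hG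
  set X := C.powersetCard N with hX
  have hNC : N ≤ C.card := by omega
  have hcov : ∀ Y ∈ X, (∃ S ∈ F, S ⊆ Y) ∨ ∃ S ∈ G, S ⊆ Y := by
    intro Y hY
    obtain ⟨hYC, hYN⟩ := Finset.mem_powersetCard.1 hY
    by_cases hbad : ∃ S ∈ G, S ⊆ Y
    · exact Or.inr hbad
    · left
      push Not at hbad
      have hco : Coarse d c K P Y := by
        refine ⟨v, fun S hS hSc => ?_⟩
        by_contra hno
        push Not at hno
        refine hbad S (Finset.mem_filter.2 ⟨Finset.mem_powersetCard.2 ⟨hS.trans hYC, hSc⟩, hno.1,
          fun i hi => absurd hi.2 (not_le.2 (hno.2 i hi.1))⟩) hS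
      obtain ⟨T, hT, hTc, hTcv, hTe⟩ := hN0 P Y hP (hYC.trans hCP) (by omega) (hco.scales hL)
      exact ⟨T, Finset.mem_filter.2 ⟨Finset.mem_powersetCard.2 ⟨hT.trans hYC, hTc⟩,
        (hT.trans hYC).trans hCP, hTc, hTcv, hTe⟩, hT⟩
  have hXc : X.card = C.card.choose N := Finset.card_powersetCard _ _
  set X1 := X.filter (fun Y => ∃ S ∈ F, S ⊆ Y) with hX1
  set X2 := X.filter (fun Y => ∃ S ∈ G, S ⊆ Y) with hX2
  have hsum : X.card ≤ X1.card + X2.card := by
    have : X ⊆ X1 ∪ X2 := by
      intro Y hY
      rcases hcov Y hY with h | h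
      · exact Finset.mem_union_left _ (Finset.mem_filter.2 ⟨hY, h⟩)
      · exact Finset.mem_union_right _ (Finset.mem_filter.2 ⟨hY, h⟩)
    exact (Finset.card_le_card this).trans (Finset.card_union_le _ _)
  have hpos : 0 < C.card.choose N := Nat.choose_pos hNC
  have e1 := count_le C F (N := N) (a := k) (by omega)
    (fun S hS => Finset.mem_powersetCard.1 (Finset.mem_filter.1 hS).1) X1
    (fun Y hY => Finset.mem_powersetCard.1 (Finset.mem_filter.1 hY).1)
    (fun Y hY => (Finset.mem_filter.1 hY).2)
  have e2 := count_le C G (N := N) (a := d + 1) (by omega)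
    (fun S hS => Finset.mem_powersetCard.1 (Finset.mem_filter.1 hS).1) X2
    (fun Y hY => Finset.mem_powersetCard.1 (Finset.mem_filter.1 hY).1)
    (fun Y hY => (Finset.mem_filter.1 hY).2)
  rcases Nat.lt_or_ge (2 * X1.card) (C.card.choose N) with h | h
  · right
    have h2 : C.card.choose N ≤ 2 * X2.card := by omega
    have h3 : C.card.choose N * C.card.choose (d + 1) ≤
        C.card.choose N * (2 * N.choose (d + 1) * G.card) := by
      calc C.card.choose N * C.card.choose (d + 1)
          ≤ 2 * X2.card * C.card.choose (d + 1) := Nat.mul_le_mul_right _ h2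
        _ = 2 * (X2.card * C.card.choose (d + 1)) := by ring
        _ ≤ 2 * (G.card * (C.card.choose N * N.choose (d + 1))) := Nat.mul_le_mul_left _ e2
        _ = C.card.choose N * (2 * N.choose (d + 1) * G.card) := by ring
    have h4 := Nat.le_of_mul_le_mul_left h3 hpos
    refine h4.trans (Nat.mul_le_mul_right _ (by omega))
  · left
    have h3 : C.card.choose N * C.card.choose k ≤
        C.card.choose N * (2 * N.choose k * F.card) := by
      calc C.card.choose N * C.card.choose k
          ≤ 2 * X1.card * C.card.choose k := Nat.mul_le_mul_right _ h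
        _ = 2 * (X1.card * C.card.choose k) := by ring
        _ ≤ 2 * (F.card * (C.card.choose N * N.choose k)) := Nat.mul_le_mul_left _ e1
        _ = C.card.choose N * (2 * N.choose k * F.card) := by ring
    have h4 := Nat.le_of_mul_le_mul_left h3 hpos
    refine h4.trans (Nat.mul_le_mul_right _ (by omega))

end Pool.Agent.H70.CC
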