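import Pool.Agent.H70.CC.Cover

/-!
The flip: `d + 2` points in general position in an odd-dimensional space, and the numbers of points of a
finite set in the simplices spanned by them.
-/

set_option autoImplicit false

namespace Pool.Agent.H70.CC

variable {E : Type*} [AddCommGroup E] [Module ℝ E] [DecidableEq E]

/-- Every `d + 1` points of `P` are affinely independent. -/
def GenPos (d : ℕ) (P : Finset E) : Prop :=
  ∀ S ⊆ P, S.card = d + 1 → AffineIndependent ℝ (fun x : S => (x : E))

omit [DecidableEq E] in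
theorem weights_zero {S : Finset E} (hS : AffineIndependent ℝ (fun x : S => (x : E))) {w : E → ℝ}
    (h1 : ∑ x ∈ S, w x = 0) (h2 : ∑ x ∈ S, w x • x = 0) : ∀ x ∈ S, w x = 0 := by
  intro x hx
  have h := affineIndependent_iff.1 hS Finset.univ (fun y : S => w y) ?_ ?_ ⟨x, hx⟩
    (Finset.mem_univ _)
  · exact h
  · rw [← h1, ← Finset.sum_coe_sort S w]
  · rw [← h2, ← Finset.sum_coe_sort S (fun x => w x • x)]

/-- A weight function on `U` vanishing at one point. -/
theorem vanish {d : ℕ} {P U : Finset E} (hP : GenPos d P) (hU : U ⊆ P) (hc : U.card = d + 2)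
    {w : E → ℝ} (h1 : ∑ x ∈ U, w x = 0) (h2 : ∑ x ∈ U, w x • x = 0) {i : E} (hi : i ∈ U)
    (h3 : w i = 0) : ∀ x ∈ U, w x = 0 := by
  have hS : AffineIndependent ℝ (fun x : (U.erase i : Finset E) => (x : E)) :=
    hP _ ((Finset.erase_subset _ _).trans hU) (by rw [Finset.card_erase_of_mem hi, hc]; rfl)
  have e1 : ∑ x ∈ U.erase i, w x = 0 := by
    rw [← h1, ← Finset.add_sum_erase U w hi, h3, zero_add]
  have e2 : ∑ x ∈ U.erase i, w x • x = 0 := by
    rw [← h2, ← Finset.add_sum_erase U (fun x => w x • x) hi, h3, zero_smul, zero_add]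
  intro x hx
  rcases eq_or_ne x i with rfl | hne
  · exact h3
  · exact weights_zero hS e1 e2 x (Finset.mem_erase.2 ⟨hne, hx⟩)

/-- The affine dependence of `d + 2` points. -/
structure Dep (U : Finset E) (l : E → ℝ) : Prop where
  sum : ∑ x ∈ U, l x = 0
  smul : ∑ x ∈ U, l x • x = 0
  ne : ∀ x ∈ U, l x ≠ 0

omit [DecidableEq E] in
theorem Dep.neg {U : Finset E} {l : E → ℝ} (h : Dep U l) : Dep U (fun x => - l x) := by
  refine ⟨?_, ?_, fun x hx => neg_ne_zero.2 (h.ne x hx)⟩
  · rw [Finset.sum_neg_distrib, h.sum, neg_zero]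
  · simp only [neg_smul]
    rw [Finset.sum_neg_distrib, h.smul, neg_zero]

theorem exists_dep {d : ℕ} [FiniteDimensional ℝ E] (hd : Module.finrank ℝ E = d) {P U : Finset E}
    (hP : GenPos d P) (hU : U ⊆ P) (hc : U.card = d + 2) : ∃ l : E → ℝ, Dep U l := by
  obtain ⟨l, h2, h1, x, hx, hx0⟩ :=
    Module.exists_nontrivial_relation_sum_zero_of_finrank_succ_lt_card
      (R := ℝ) (t := U) (by rw [hd, hc]; omega)
  refine ⟨l, h1, h2, fun i hi h0 => hx0 (vanish hP hU hc h1 h2 hi h0 x hx)⟩

/-- A point of the hull lies in a simplex which omits a point with positive coefficient. -/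
theorem exists_simplex {U : Finset E} {l : E → ℝ} (hl : Dep U l) {p : E}
    (hp : p ∈ convexHull ℝ (U : Set E)) :
    ∃ i ∈ U, 0 < l i ∧ p ∈ convexHull ℝ ((U.erase i : Finset E) : Set E) := by
  obtain ⟨w, hw0, hw1, hw2⟩ := Finset.mem_convexHull'.1 hp
  have hne : (U.filter (fun x => 0 < l x)).Nonempty := by
    by_contra h
    rw [Finset.not_nonempty_iff_eq_empty, Finset.filter_eq_empty_iff] at h
    have hU : U.Nonempty := by
      by_contra hU
      rw [Finset.not_nonempty_iff_eq_empty] at hU
      rw [hU] at hw1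
      simp at hw1
    have : ∑ x ∈ U, l x < 0 := Finset.sum_neg
      (fun x hx => lt_of_le_of_ne (not_lt.1 (h hx)) (hl.ne x hx)) hU
    rw [hl.sum] at this
    exact lt_irrefl _ this
  obtain ⟨i, hi, hmin⟩ := Finset.exists_min_image _ (fun x => w x / l x) hne
  obtain ⟨hiU, hli⟩ := Finset.mem_filter.1 hi
  refine ⟨i, hiU, hli, ?_⟩
  set t := w i / l i with ht
  have ht0 : 0 ≤ t := div_nonneg (hw0 i hiU) hli.le
  have hzero : w i - t * l i = 0 := by
    rw [ht, div_mul_cancel₀ _ hli.ne', sub_self]
  refine Finset.mem_convexHull'.2 ⟨fun x => w x - t * l x, ?_, ?_, ?_⟩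
  · intro x hx
    obtain ⟨-, hxU⟩ := Finset.mem_erase.1 hx
    rcases lt_or_gt_of_ne (hl.ne x hxU) with h | h
    · have := mul_nonneg ht0 (neg_nonneg.2 h.le)
      have := hw0 x hxU
      show 0 ≤ w x - t * l x
      nlinarith
    · have h3 : t ≤ w x / l x := hmin x (Finset.mem_filter.2 ⟨hxU, h⟩)
      rw [le_div_iff₀ h] at h3
      show 0 ≤ w x - t * l x
      linarith
  · have h4 := Finset.add_sum_erase U (fun x => w x - t * l x) hiU
    simp only [hzero, zero_add] at h4
    rw [h4, Finset.sum_sub_distrib, ← Finset.mul_sum, hl.sum, hw1]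
    simp
  · have h4 := Finset.add_sum_erase U (fun x => (w x - t * l x) • x) hiU
    simp only [hzero, zero_smul, zero_add] at h4
    rw [h4]
    simp only [sub_smul, mul_smul]
    rw [Finset.sum_sub_distrib, ← Finset.smul_sum, hl.smul, hw2]
    simp

/-- The simplex of `exists_simplex` is unique for the other points of a set in general position. -/
theorem unique_simplex {d : ℕ} {P U : Finset E} (hP : GenPos d P) (hU : U ⊆ P)
    (hc : U.card = d + 2) {l : E → ℝ} (hl : Dep U l) {p : E} (hpP : p ∈ P) (hpU : p ∉ U) {i j : E}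
    (hi : i ∈ U) (hj : j ∈ U) (hli : 0 < l i) (hlj : 0 < l j)
    (h1 : p ∈ convexHull ℝ ((U.erase i : Finset E) : Set E))
    (h2 : p ∈ convexHull ℝ ((U.erase j : Finset E) : Set E)) : i = j := by
  by_contra hij
  obtain ⟨w, hw0, hw1, hw2⟩ := Finset.mem_convexHull'.1 h1
  obtain ⟨z, hz0, hz1, hz2⟩ := Finset.mem_convexHull'.1 h2
  set W : E → ℝ := fun x => if x = i then 0 else w x with hW
  set Z : E → ℝ := fun x => if x = j then 0 else z x with hZ
  have hWe : ∀ x ∈ U.erase i, W x = w x := fun x hx => if_neg (Finset.mem_erase.1 hx).1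
  have hZe : ∀ x ∈ U.erase j, Z x = z x := fun x hx => if_neg (Finset.mem_erase.1 hx).1
  have hWi : W i = 0 := if_pos rfl
  have hZj : Z j = 0 := if_pos rfl
  have hW1 : ∑ x ∈ U, W x = 1 := by
    rw [← Finset.add_sum_erase U W hi, hWi, zero_add, Finset.sum_congr rfl hWe, hw1]
  have hW2 : ∑ x ∈ U, W x • x = p := by
    rw [← Finset.add_sum_erase U (fun x => W x • x) hi, hWi, zero_smul, zero_add,
      Finset.sum_congr rfl (fun x hx => by rw [hWe x hx]), hw2]
  have hZ1 : ∑ x ∈ U, Z x = 1 := by
    rw [← Finset.add_sum_erase U Z hj, hZj, zero_add, Finset.sum_congr rfl hZe, hz1]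
  have hZ2 : ∑ x ∈ U, Z x • x = p := by
    rw [← Finset.add_sum_erase U (fun x => Z x • x) hj, hZj, zero_smul, zero_add,
      Finset.sum_congr rfl (fun x hx => by rw [hZe x hx]), hz2]
  have hZi : 0 ≤ Z i := by
    rw [hZe i (Finset.mem_erase.2 ⟨hij, hi⟩)]
    exact hz0 i (Finset.mem_erase.2 ⟨hij, hi⟩)
  have hWj : 0 ≤ W j := by
    rw [hWe j (Finset.mem_erase.2 ⟨fun h => hij h.symm, hj⟩)]
    exact hw0 j (Finset.mem_erase.2 ⟨fun h => hij h.symm, hj⟩)
  set t := (W i - Z i) / l i with ht
  have ht0 : t ≤ 0 := by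
    rw [ht, hWi, zero_sub]
    exact div_nonpos_of_nonpos_of_nonneg (neg_nonpos.2 hZi) hli.le
  have hv := vanish hP hU hc (w := fun x => W x - Z x - t * l x) ?_ ?_ hi ?_ j hj
  · have hWj0 : W j = 0 := by
      have h5 : W j - Z j - t * l j = 0 := hv
      rw [hZj] at h5
      have := mul_nonneg (neg_nonneg.2 ht0) hlj.le
      nlinarith
    -- `p` is an affine combination of the other `d` points
    have hjU : j ∈ U.erase i := Finset.mem_erase.2 ⟨fun h => hij h.symm, hj⟩
    set S := (U.erase i).erase j with hS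
    have hpS : p ∉ S := fun h => hpU (Finset.mem_of_mem_erase (Finset.mem_of_mem_erase h))
    have hSc : (insert p S).card = d + 1 := by
      rw [Finset.card_insert_of_notMem hpS, hS, Finset.card_erase_of_mem hjU,
        Finset.card_erase_of_mem hi, hc]
      rfl
    have hSP : insert p S ⊆ P := Finset.insert_subset hpP
      (((Finset.erase_subset _ _).trans (Finset.erase_subset _ _)).trans hU)
    have e1 : ∑ x ∈ S, W x = 1 := by
      rw [← hW1, ← Finset.add_sum_erase U W hi, ← Finset.add_sum_erase (U.erase i) W hjU, hWi, hWj0]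
      simp [hS]
    have e2 : ∑ x ∈ S, W x • x = p := by
      rw [← hW2, ← Finset.add_sum_erase U (fun x => W x • x) hi,
        ← Finset.add_sum_erase (U.erase i) (fun x => W x • x) hjU, hWi, hWj0]
      simp [hS]
    have hne : ∀ x ∈ S, (if x = p then (-1 : ℝ) else W x) = W x := fun x hx =>
      if_neg (by rintro rfl; exact hpS hx)
    have h6 := weights_zero (S := insert p S) (hP _ hSP hSc)
      (w := fun x => if x = p then -1 else W x) ?_ ?_ p (Finset.mem_insert_self _ _)
    · simp at h6
    · rw [Finset.sum_insert hpS, if_pos rfl, Finset.sum_congr rfl hne, e1]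
      norm_num
    · rw [Finset.sum_insert hpS, if_pos rfl,
        Finset.sum_congr rfl (fun x hx => by rw [hne x hx]), e2]
      simp
  · simp only [Finset.sum_sub_distrib, ← Finset.mul_sum]
    rw [hW1, hZ1, hl.sum]
    simp
  · simp only [sub_smul, mul_smul, Finset.sum_sub_distrib, ← Finset.smul_sum]
    rw [hW2, hZ2, hl.smul]
    simp
  · show W i - Z i - t * l i = 0
    rw [ht, div_mul_cancel₀ _ hli.ne', sub_self]

/-- An affinely independent set is in convex position. -/
theorem cvx_of_indep {S : Finset E} (hS : AffineIndependent ℝ (fun x : S => (x : E))) : Cvx S := by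
  intro p hp hm
  obtain ⟨w, hw0, hw1, hw2⟩ := Finset.mem_convexHull'.1 hm
  have h6 := weights_zero hS (w := fun x => if x = p then -1 else w x) ?_ ?_ p hp
  · simp at h6
  · rw [← Finset.add_sum_erase S _ hp, if_pos rfl,
      Finset.sum_congr rfl (fun x hx => if_neg (Finset.mem_erase.1 hx).1), hw1]
    norm_num
  · rw [← Finset.add_sum_erase S _ hp, if_pos rfl,
      Finset.sum_congr rfl (fun x hx => by rw [if_neg (Finset.mem_erase.1 hx).1]), hw2]
    simp

open Classical in
/-- The points of `P` outside `U` in the simplex which omits `i`. -/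
noncomputable def Fs (P U : Finset E) (i : E) : Finset E :=
  (P \ U).filter (fun p => p ∈ convexHull ℝ ((U.erase i : Finset E) : Set E))

open Classical in
theorem sum_pos {d : ℕ} {P U : Finset E} (hP : GenPos d P) (hU : U ⊆ P)
    (hc : U.card = d + 2) {l : E → ℝ} (hl : Dep U l) :
    ∑ i ∈ U.filter (fun i => 0 < l i), (Fs P U i).card =
      ((P \ U).filter (fun p => p ∈ convexHull ℝ (U : Set E))).card := by
  rw [← Finset.card_biUnion]
  · congr 1
    ext p
    simp only [Finset.mem_biUnion, Finset.mem_filter, Fs]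
    constructor
    · rintro ⟨i, -, hp, hm⟩
      exact ⟨hp, convexHull_mono (by exact_mod_cast Finset.erase_subset i U) hm⟩
    · rintro ⟨hp, hm⟩
      obtain ⟨i, hi, hli, hpi⟩ := exists_simplex hl hm
      exact ⟨i, ⟨hi, hli⟩, hp, hpi⟩
  · intro i hi j hj hij
    obtain ⟨hiU, hli⟩ := Finset.mem_filter.1 hi
    obtain ⟨hjU, hlj⟩ := Finset.mem_filter.1 hj
    refine Finset.disjoint_left.2 fun p h1 h2 => hij ?_
    obtain ⟨h3, h4⟩ := Finset.mem_filter.1 h1
    obtain ⟨-, h5⟩ := Finset.mem_filter.1 h2
    obtain ⟨h6, h7⟩ := Finset.mem_sdiff.1 h3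
    exact unique_simplex hP hU hc hl h6 h7 hiU hjU hli hlj h4 h5

open Classical in
/-- The number of points of `A` in the convex hull of `S` which are not in `S`. -/
noncomputable def cnt (A S : Finset E) : ℕ :=
  ((A \ S).filter (fun p => p ∈ convexHull ℝ (S : Set E))).card

theorem cnt_eq {P U : Finset E} {i : E}
    (h : i ∉ convexHull ℝ ((U.erase i : Finset E) : Set E)) :
    (Fs P U i).card = cnt P (U.erase i) := by
  classical
  unfold Fs cnt
  congr 1
  ext p
  simp only [Finset.mem_filter, Finset.mem_sdiff, Finset.mem_erase, not_and]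
  constructor
  · rintro ⟨⟨h1, h2⟩, h3⟩
    exact ⟨⟨h1, fun _ => h2⟩, h3⟩
  · rintro ⟨⟨h1, h2⟩, h3⟩
    exact ⟨⟨h1, h2 fun hp => h (hp ▸ h3)⟩, h3⟩

theorem Fs_le {P U : Finset E} {i : E} : (Fs P U i).card ≤ cnt P (U.erase i) := by
  classical
  unfold Fs cnt
  refine Finset.card_le_card ?_
  intro p
  simp only [Finset.mem_filter, Finset.mem_sdiff, Finset.mem_erase, not_and]
  rintro ⟨⟨h1, h2⟩, h3⟩
  exact ⟨⟨h1, fun _ => h2⟩, h3⟩

/-- If a point is in the hull of the others then the other coefficients have the opposite sign. -/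
theorem opposite {d : ℕ} {P U : Finset E} (hP : GenPos d P) (hU : U ⊆ P) (hc : U.card = d + 2)
    {l : E → ℝ} (hl : Dep U l) {i : E} (hi : i ∈ U)
    (hm : i ∈ convexHull ℝ ((U.erase i : Finset E) : Set E)) :
    ∀ j ∈ U, j ≠ i → l j * l i < 0 := by
  intro j hj hji
  obtain ⟨w, hw0, hw1, hw2⟩ := Finset.mem_convexHull'.1 hm
  have hli := hl.ne i hi
  have hlj := hl.ne j hj
  have hne : ∀ x ∈ U.erase i, (if x = i then (-1 : ℝ) else w x) = w x := fun x hx =>
    if_neg (Finset.mem_erase.1 hx).1
  have hv := vanish hP hU hc (w := fun x => (if x = i then (-1 : ℝ) else w x) - (-1 / l i) * l x)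
    ?_ ?_ hi ?_ j hj
  · simp only [if_neg hji] at hv
    have hwj : 0 ≤ w j := hw0 j (Finset.mem_erase.2 ⟨hji, hj⟩)
    have h1 : w j * l i = - l j := by
      have : w j = (-1 / l i) * l j := by linarith
      rw [this]
      field_simp
    rcases lt_or_gt_of_ne hli with h | h
    · have : 0 ≤ l j := by nlinarith
      exact mul_neg_of_pos_of_neg (lt_of_le_of_ne this (Ne.symm hlj)) h
    · have : l j ≤ 0 := by nlinarith
      exact mul_neg_of_neg_of_pos (lt_of_le_of_ne this hlj) h
  · rw [Finset.sum_sub_distrib, ← Finset.mul_sum, hl.sum, ← Finset.add_sum_erase U _ hi, if_pos rfl,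
      Finset.sum_congr rfl hne, hw1]
    norm_num
  · simp only [sub_smul, mul_smul]
    rw [Finset.sum_sub_distrib, ← Finset.smul_sum, hl.smul, ← Finset.add_sum_erase U _ hi,
      if_pos rfl, Finset.sum_congr rfl (fun x hx => by rw [hne x hx]), hw2]
    simp
  · rw [if_pos rfl, div_mul_cancel₀ _ hli]
    norm_num

/-- If the simplices spanned by `d + 2` points of a set in general position in an odd-dimensional space
contain further points of the set, then their numbers are not all in a short interval. -/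
theorem flip {d : ℕ} (hodd : Odd d) [FiniteDimensional ℝ E] (hd : Module.finrank ℝ E = d)
    {P U : Finset E} (hP : GenPos d P) (hU : U ⊆ P) (hc : U.card = d + 2) {v : ℕ}
    (hv : ∀ i ∈ U, v ≤ cnt P (U.erase i) ∧ (d + 1) * cnt P (U.erase i) < (d + 3) * v) : False := by
  classical
  have hd1 : 1 ≤ d := hodd.pos
  obtain ⟨l0, hl0⟩ := exists_dep hd hP hU hc
  have hvpos : 0 < v := by
    obtain ⟨i, hi⟩ : U.Nonempty := Finset.card_pos.1 (by omega)
    rcases Nat.eq_zero_or_pos v with h | h
    · have := (hv i hi).2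
      rw [h] at this
      omega
    · exact h
  by_cases hcase : ∃ i ∈ U, i ∈ convexHull ℝ ((U.erase i : Finset E) : Set E)
  · obtain ⟨i0, hi0, hm0⟩ := hcase
    obtain ⟨l, hl, hlpos⟩ : ∃ l : E → ℝ, Dep U l ∧ 0 < l i0 := by
      rcases lt_or_gt_of_ne (hl0.ne i0 hi0) with h | h
      · exact ⟨_, hl0.neg, neg_pos.2 h⟩
      · exact ⟨l0, hl0, h⟩
    have hop := opposite hP hU hc hl hi0 hm0
    have hcard : (U.erase i0).card = d + 1 := by rw [Finset.card_erase_of_mem hi0, hc]; rfl
    have hcv : Cvx (U.erase i0) :=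
      cvx_of_indep (hP _ ((Finset.erase_subset _ _).trans hU) hcard)
    have hUsub : (U : Set E) ⊆ convexHull ℝ ((U.erase i0 : Finset E) : Set E) := by
      intro x hx
      rcases eq_or_ne x i0 with rfl | hne
      · exact hm0
      · exact subset_convexHull ℝ _ (Finset.mem_coe.2 (Finset.mem_erase.2 ⟨hne, hx⟩))
    have hni : ∀ i ∈ U.erase i0, i ∉ convexHull ℝ ((U.erase i : Finset E) : Set E) := by
      intro i hi
      exact notMem_hull hcv hi (fun x hx =>
        hUsub (Finset.mem_coe.2 (Finset.mem_of_mem_erase (Finset.mem_coe.1 hx))))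
        fun h => (Finset.notMem_erase i U) (Finset.mem_coe.1 h)
    have e1 := sum_pos hP hU hc hl
    have e2 := sum_pos hP hU hc hl.neg
    have f1 : U.filter (fun i => 0 < l i) = {i0} := by
      ext x
      simp only [Finset.mem_filter, Finset.mem_singleton]
      constructor
      · rintro ⟨h1, h2⟩
        by_contra hne
        have := hop x h1 hne
        have := mul_pos h2 hlpos
        linarith
      · rintro rfl
        exact ⟨hi0, hlpos⟩
    have f2 : U.filter (fun i => 0 < - l i) = U.erase i0 := by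
      ext x
      simp only [Finset.mem_filter, Finset.mem_erase]
      constructor
      · rintro ⟨h1, h2⟩
        refine ⟨?_, h1⟩
        rintro rfl
        linarith
      · rintro ⟨h1, h2⟩
        refine ⟨h2, ?_⟩
        by_contra h3
        have h4 : 0 ≤ l x := by linarith
        have := hop x h2 h1
        have := mul_nonneg h4 hlpos.le
        linarith
    rw [f1, Finset.sum_singleton] at e1
    rw [f2] at e2
    have e3 : (d + 1) * v ≤ ∑ i ∈ U.erase i0, (Fs P U i).card := by
      have := Finset.card_nsmul_le_sum (U.erase i0) (fun i => (Fs P U i).card) v (fun i hi => by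
        show v ≤ (Fs P U i).card
        rw [cnt_eq (hni i hi)]
        exact (hv i (Finset.mem_of_mem_erase hi)).1)
      rwa [hcard, smul_eq_mul] at this
    have e4 : (Fs P U i0).card ≤ cnt P (U.erase i0) := Fs_le
    have e5 := (hv i0 hi0).2
    have e6 : (d + 1) * v ≤ cnt P (U.erase i0) := by omega
    have e7 : (d + 1) * ((d + 1) * v) ≤ (d + 1) * cnt P (U.erase i0) := Nat.mul_le_mul_left _ e6
    have e8 : (d + 3) * v ≤ (d + 1) * ((d + 1) * v) := by
      rw [← mul_assoc]
      exact Nat.mul_le_mul_right v (by nlinarith)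
    omega
  · push Not at hcase
    obtain ⟨l, hl, hlt⟩ : ∃ l : E → ℝ, Dep U l ∧
        (U.filter (fun i => 0 < l i)).card < (U.filter (fun i => 0 < - l i)).card := by
      have e4 : (U.filter (fun i => 0 < l0 i)).card + (U.filter (fun i => 0 < - l0 i)).card =
          d + 2 := by
        rw [← hc, ← Finset.card_filter_add_card_filter_not (s := U) (fun i => 0 < l0 i)]
        congr 2
        refine Finset.filter_congr fun x hx => ?_
        rw [neg_pos, not_lt]
        exact ⟨fun h => h.le, fun h => lt_of_le_of_ne h (hl0.ne x hx)⟩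
      rcases lt_trichotomy (U.filter (fun i => 0 < l0 i)).card
        (U.filter (fun i => 0 < - l0 i)).card with h | h | h
      · exact ⟨l0, hl0, h⟩
      · exfalso
        obtain ⟨m, hm⟩ := hodd
        omega
      · exact ⟨_, hl0.neg, by simpa using h⟩
    have e4 : (U.filter (fun i => 0 < l i)).card + (U.filter (fun i => 0 < - l i)).card = d + 2 := by
      rw [← hc, ← Finset.card_filter_add_card_filter_not (s := U) (fun i => 0 < l i)]
      congr 2
      refine Finset.filter_congr fun x hx => ?_
      rw [neg_pos, not_lt]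
      exact ⟨fun h => h.le, fun h => lt_of_le_of_ne h (hl.ne x hx)⟩
    have e1 := sum_pos hP hU hc hl
    have e2 := sum_pos hP hU hc hl.neg
    set a := (U.filter (fun i => 0 < l i)).card with ha
    set b := (U.filter (fun i => 0 < - l i)).card with hb
    have hF : ∀ i ∈ U, (Fs P U i).card = cnt P (U.erase i) := fun i hi => cnt_eq (hcase i hi)
    have e5 : b * v ≤ ∑ i ∈ U.filter (fun i => 0 < - l i), (Fs P U i).card := by
      have := Finset.card_nsmul_le_sum (U.filter (fun i => 0 < - l i))
        (fun i => (Fs P U i).card) v (fun i hi => by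
          show v ≤ (Fs P U i).card
          rw [hF i (Finset.mem_filter.1 hi).1]
          exact (hv i (Finset.mem_filter.1 hi).1).1)
      rwa [smul_eq_mul] at this
    have e6 : ∑ i ∈ U.filter (fun i => 0 < l i), ((d + 1) * (Fs P U i).card + 1) ≤
        a * ((d + 3) * v) := by
      have := Finset.sum_le_card_nsmul (U.filter (fun i => 0 < l i))
        (fun i => (d + 1) * (Fs P U i).card + 1) ((d + 3) * v) (fun i hi => by
          show (d + 1) * (Fs P U i).card + 1 ≤ (d + 3) * v
          rw [hF i (Finset.mem_filter.1 hi).1]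
          exact (hv i (Finset.mem_filter.1 hi).1).2)
      rwa [smul_eq_mul] at this
    rw [Finset.sum_add_distrib, ← Finset.mul_sum, e1, Finset.sum_const, smul_eq_mul, mul_one,
      ← ha] at e6
    rw [e2] at e5
    set G := ((P \ U).filter (fun p => p ∈ convexHull ℝ (U : Set E))).card
    have e7 : (d + 1) * (b * v) ≤ (d + 1) * G := Nat.mul_le_mul_left _ e5
    have e8 : a * (d + 3) ≤ (d + 1) * b := by
      obtain ⟨m, hm⟩ := hodd
      have h1 : a ≤ m + 1 := by omega
      have h2 : m + 2 ≤ b := by omega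
      have h3 : a * (d + 3) ≤ (m + 1) * (d + 3) := Nat.mul_le_mul_right _ h1
      have h4 : (d + 1) * (m + 2) ≤ (d + 1) * b := Nat.mul_le_mul_left _ h2
      have h5 : (m + 1) * (d + 3) = (d + 1) * (m + 2) := by
        rw [hm]
        ring
      omega
    have e9 : a * ((d + 3) * v) ≤ (d + 1) * (b * v) := by
      have := Nat.mul_le_mul_right v e8
      calc a * ((d + 3) * v) = a * (d + 3) * v := by ring
        _ ≤ (d + 1) * b * v := this
        _ = (d + 1) * (b * v) := by ring
    have ha0 : a = 0 := by omega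
    have hb0 : b = d + 2 := by omega
    have e10 : (d + 1) * (b * v) ≤ 0 := by
      rw [ha0] at e6
      omega
    have : 0 < (d + 1) * (b * v) := by
      rw [hb0]
      positivity
    omega

end Pool.Agent.H70.CC
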