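import Pool.Agent.H70.CC.Many

/-!
Intervals `[v, K v]` are covered by a bounded number of short intervals.
-/

set_option autoImplicit false

namespace Pool.Agent.H70.CC

/-- Left end points of short intervals which follow each other. -/
def wseq (d v : ℕ) : ℕ → ℕ
  | 0 => v
  | t + 1 => ((d + 3) * wseq d v t + d) / (d + 1)

theorem wseq_step {d v t n : ℕ} (h : n < wseq d v (t + 1)) :
    (d + 1) * n < (d + 3) * wseq d v t := by
  unfold wseq at h
  have h1 : n + 1 ≤ ((d + 3) * wseq d v t + d) / (d + 1) := h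
  rw [Nat.le_div_iff_mul_le (Nat.succ_pos d)] at h1
  nlinarith

theorem wseq_grow (d v t : ℕ) : (d + 3) ^ t * v ≤ (d + 1) ^ t * wseq d v t := by
  induction t with
  | zero => simp [wseq]
  | succ t ih =>
    have h1 : (d + 3) * wseq d v t ≤ (d + 1) * wseq d v (t + 1) := by
      show (d + 3) * wseq d v t ≤ (d + 1) * (((d + 3) * wseq d v t + d) / (d + 1))
      have := Nat.div_add_mod ((d + 3) * wseq d v t + d) (d + 1)
      have h2 : ((d + 3) * wseq d v t + d) % (d + 1) < d + 1 := Nat.mod_lt _ (Nat.succ_pos d)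
      omega
    calc (d + 3) ^ (t + 1) * v = (d + 3) * ((d + 3) ^ t * v) := by ring
      _ ≤ (d + 3) * ((d + 1) ^ t * wseq d v t) := Nat.mul_le_mul_left _ ih
      _ = (d + 1) ^ t * ((d + 3) * wseq d v t) := by ring
      _ ≤ (d + 1) ^ t * ((d + 1) * wseq d v (t + 1)) := Nat.mul_le_mul_left _ h1
      _ = (d + 1) ^ (t + 1) * wseq d v (t + 1) := by ring

theorem exists_len (d K : ℕ) : ∃ L : ℕ, K * (d + 1) ^ L < (d + 3) ^ L := by
  obtain ⟨L, hL⟩ := pow_unbounded_of_one_lt (K : ℝ)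
    (show (1 : ℝ) < ((d : ℝ) + 3) / ((d : ℝ) + 1) by
      rw [one_lt_div (by positivity)]; linarith)
  refine ⟨L, ?_⟩
  rw [div_pow, lt_div_iff₀ (by positivity)] at hL
  exact_mod_cast hL

theorem wseq_cover {d v K L n : ℕ} (hL : K * (d + 1) ^ L < (d + 3) ^ L) (hv : 0 < v)
    (h1 : v ≤ n) (h2 : n ≤ K * v) : ∃ t < L, wseq d v t ≤ n ∧ (d + 1) * n < (d + 3) * wseq d v t := by
  have h3 : n < wseq d v L := by
    by_contra h
    push Not at h
    have h4 := wseq_grow d v L
    have h5 : (d + 1) ^ L * wseq d v L ≤ (d + 1) ^ L * (K * v) :=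
      Nat.mul_le_mul_left _ (h.trans h2)
    have h6 : K * (d + 1) ^ L * v < (d + 3) ^ L * v := Nat.mul_lt_mul_of_pos_right hL hv
    have h7 : (d + 1) ^ L * (K * v) = K * (d + 1) ^ L * v := by ring
    omega
  obtain ⟨t, ht, ht'⟩ : ∃ t < L, wseq d v t ≤ n ∧ n < wseq d v (t + 1) := by
    clear hL h2
    induction L with
    | zero => exact absurd h3 (not_lt.2 h1)
    | succ L ih =>
      by_cases h : n < wseq d v L
      · obtain ⟨t, ht, h4⟩ := ih h
        exact ⟨t, ht.trans (Nat.lt_succ_self _), h4⟩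
      · exact ⟨L, Nat.lt_succ_self _, not_lt.1 h, h3⟩
  exact ⟨t, ht, ht'.1, wseq_step ht'.2⟩

variable {E : Type*} [AddCommGroup E] [Module ℝ E] [DecidableEq E]

/-- The numbers of further points of `A` in the simplices spanned by `C` are zero or in one of the `c`
intervals `[v i, K * v i]`. -/
def Coarse (d c K : ℕ) (A C : Finset E) : Prop :=
  ∃ v : Fin c → ℕ, ∀ S ⊆ C, S.card = d + 1 → cnt A S = 0 ∨
    ∃ i, v i ≤ cnt A S ∧ cnt A S ≤ K * v i

theorem Coarse.scales {d c K L : ℕ} (hL : K * (d + 1) ^ L < (d + 3) ^ L) {A C : Finset E}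
    (h : Coarse d c K A C) : Scales d (c * L) A C := by
  obtain ⟨v, hv⟩ := h
  refine ⟨fun i => wseq d (v (finProdFinEquiv.symm i).1) (finProdFinEquiv.symm i).2.1,
    fun S hS hSc => ?_⟩
  rcases hv S hS hSc with h0 | ⟨i, h1, h2⟩
  · exact Or.inl h0
  · rcases Nat.eq_zero_or_pos (v i) with h3 | h3
    · left
      rw [h3] at h2
      omega
    · obtain ⟨t, ht, h4, h5⟩ := wseq_cover hL h3 h1 h2
      right
      refine ⟨finProdFinEquiv (i, ⟨t, ht⟩), ?_⟩
      simp only [Equiv.symm_apply_apply]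
      exact ⟨h4, h5⟩

theorem coarse_many {d : ℕ} (hodd : Odd d) [FiniteDimensional ℝ E]
    (hd : Module.finrank ℝ E = d) (k c K r : ℕ) : ∃ N : ℕ, ∀ (m : ℕ) (W : Finset E)
      (C : Fin r → Finset E), GenPos d (W ∪ Finset.univ.biUnion C) →
      (∀ j, Coarse d c K (W ∪ C j) (C j)) → m * N ≤ (Finset.univ.biUnion C).card →
      ∃ H : Fin m → Finset E,
        (∀ i, (∃ j, H i ⊆ C j) ∧ Hole k (W ∪ Finset.univ.biUnion C) (H i)) ∧
        ∀ i j, i ≠ j → Disjoint (convexHull ℝ (H i : Set E)) (convexHull ℝ (H j : Set E)) := by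
  obtain ⟨L, hL⟩ := exists_len d K
  obtain ⟨N, hN⟩ := union_many (E := E) hodd hd k (c * L) r
  exact ⟨N, fun m W C hP hv hc => hN m W C hP (fun j => (hv j).scales hL) hc⟩

end Pool.Agent.H70.CC
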