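import Pool.Agent.H70.CC.Union

/-!
Many pairwise disjoint holes.
-/

set_option autoImplicit false

namespace Pool.Agent.H70.CC

variable {E : Type*} [AddCommGroup E] [Module ℝ E] [DecidableEq E]

/-- Restriction to a convex region. -/
theorem restrict {d k c r N : ℕ}
    (hN : ∀ (W : Finset E) (C : Fin r → Finset E), GenPos d (W ∪ Finset.univ.biUnion C) →
      (∀ j, Scales d c (W ∪ C j) (C j)) → N ≤ (Finset.univ.biUnion C).card →
      ∃ H, (∃ j, H ⊆ C j) ∧ Hole k (W ∪ Finset.univ.biUnion C) H)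
    (W : Finset E) (C : Fin r → Finset E) (hP : GenPos d (W ∪ Finset.univ.biUnion C))
    (hv : ∀ j, Scales d c (W ∪ C j) (C j)) {R : E → Prop} [DecidablePred R]
    (hR : ∀ S : Finset E, (∀ x ∈ S, R x) → ∀ p ∈ convexHull ℝ (S : Set E), R p)
    (hc : N ≤ ((Finset.univ.biUnion C).filter R).card) :
    ∃ H, (∃ j, H ⊆ C j) ∧ (∀ x ∈ H, R x) ∧ Hole k (W ∪ Finset.univ.biUnion C) H := by
  classical
  have e1 : Finset.univ.biUnion (fun j => (C j).filter R) = (Finset.univ.biUnion C).filter R := by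
    rw [Finset.filter_biUnion]
  have e2 : W.filter R ∪ Finset.univ.biUnion (fun j => (C j).filter R) =
      (W ∪ Finset.univ.biUnion C).filter R := by
    rw [e1, Finset.filter_union]
  obtain ⟨H, ⟨j, g0⟩, g1, g2, g3, g4⟩ := hN (W.filter R) (fun j => (C j).filter R)
    (by rw [e2]; exact hP.mono (Finset.filter_subset _ _))
    (fun j => by
      have := (hv j).filter hR
      rwa [Finset.filter_union] at this)
    (by rw [e1]; exact hc)
  rw [e2] at g1 g4
  have g5 : ∀ x ∈ H, R x := fun x hx => (Finset.mem_filter.1 (g0 hx)).2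
  exact ⟨H, ⟨j, g0.trans (Finset.filter_subset _ _)⟩, g5, g1.trans (Finset.filter_subset _ _), g2, g3,
    fun p hp hm => g4 p (Finset.mem_filter.2 ⟨hp, hR H g5 p hm⟩) hm⟩

theorem many_holes {d k c r N : ℕ} (f : E →ₗ[ℝ] ℝ)
    (hN : ∀ (W : Finset E) (C : Fin r → Finset E), GenPos d (W ∪ Finset.univ.biUnion C) →
      (∀ j, Scales d c (W ∪ C j) (C j)) → N ≤ (Finset.univ.biUnion C).card →
      ∃ H, (∃ j, H ⊆ C j) ∧ Hole k (W ∪ Finset.univ.biUnion C) H) (m : ℕ) :
    ∀ (W : Finset E) (C : Fin r → Finset E), Set.InjOn f (Finset.univ.biUnion C : Finset E) →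
      GenPos d (W ∪ Finset.univ.biUnion C) →
      (∀ j, Scales d c (W ∪ C j) (C j)) →
      ∀ a : ℝ, m * (N + 1) ≤ ((Finset.univ.biUnion C).filter (fun x => a < f x)).card →
      ∃ H : Fin m → Finset E, (∀ i, (∃ j, H i ⊆ C j) ∧ (∀ x ∈ H i, a < f x) ∧
        Hole k (W ∪ Finset.univ.biUnion C) (H i)) ∧
        ∀ i j, i ≠ j → Disjoint (convexHull ℝ (H i : Set E)) (convexHull ℝ (H j : Set E)) := by
  classical
  induction m with
  | zero =>
    intro W C _ _ _ _ _
    exact ⟨fun i => i.elim0, fun i => i.elim0, fun i => i.elim0⟩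
  | succ m ih =>
    intro W C hf hP hv a hcard
    set D := (Finset.univ.biUnion C).filter (fun x => a < f x) with hD
    have hcard' : m * (N + 1) + (N + 1) ≤ D.card := by
      have : (m + 1) * (N + 1) = m * (N + 1) + (N + 1) := by ring
      omega
    have hfD : Set.InjOn f (D : Set E) := hf.mono (by
      exact_mod_cast Finset.filter_subset _ _)
    obtain ⟨b, hb⟩ := lowest hfD (show 1 ≤ N + 1 by omega) (show N + 1 ≤ D.card by omega)
    have hsum : (D.filter (fun x => f x ≤ b)).card + (D.filter (fun x => b < f x)).card = D.card := by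
      rw [← Finset.card_filter_add_card_filter_not (s := D) (fun x => f x ≤ b)]
      simp only [not_le]
    have hab : a < b := by
      obtain ⟨x, hx⟩ : (D.filter (fun x => f x ≤ b)).Nonempty := Finset.card_pos.1 (by omega)
      obtain ⟨h1, h2⟩ := Finset.mem_filter.1 hx
      exact lt_of_lt_of_le (Finset.mem_filter.1 h1).2 h2
    have e1 : D.filter (fun x => f x ≤ b) =
        (Finset.univ.biUnion C).filter (fun x => a < f x ∧ f x ≤ b) := by
      rw [hD, Finset.filter_filter]
    have e2 : D.filter (fun x => b < f x) =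
        (Finset.univ.biUnion C).filter (fun x => b < f x) := by
      rw [hD, Finset.filter_filter]
      refine Finset.filter_congr fun x _ => ⟨fun h => h.2, fun h => ⟨hab.trans h, h⟩⟩
    obtain ⟨H0, g0, g1, g2⟩ := restrict hN W C hP hv (R := fun x => a < f x ∧ f x ≤ b)
      (fun S hS p hp => ⟨hull_gt (fun x hx => (hS x hx).1) hp,
        hull_le (fun x hx => (hS x hx).2) hp⟩) (by rw [← e1]; omega)
    obtain ⟨H, hH, hd⟩ := ih W C hf hP hv b (by rw [← e2]; omega)
    have hle : ∀ q ∈ convexHull ℝ (H0 : Set E), f q ≤ b := fun q hq =>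
      hull_le (fun x hx => (g1 x hx).2) hq
    have hgt : ∀ i, ∀ q ∈ convexHull ℝ (H i : Set E), b < f q := fun i q hq =>
      hull_gt (fun x hx => (hH i).2.1 x hx) hq
    have hdis : ∀ i, Disjoint (convexHull ℝ (H0 : Set E)) (convexHull ℝ (H i : Set E)) := fun i =>
      Set.disjoint_left.2 fun q h1 h2 => absurd (hle q h1) (not_le.2 (hgt i q h2))
    refine ⟨Fin.cons H0 H, ?_, ?_⟩
    · intro i
      refine Fin.cases ?_ (fun i => ?_) i
      · rw [Fin.cons_zero]
        exact ⟨g0, fun x hx => (g1 x hx).1, g2⟩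
      · rw [Fin.cons_succ]
        exact ⟨(hH i).1, fun x hx => hab.trans ((hH i).2.1 x hx), (hH i).2.2⟩
    · intro i j
      refine Fin.cases ?_ (fun i => ?_) i <;> refine Fin.cases ?_ (fun j => ?_) j
      · intro h
        exact absurd rfl h
      · intro _
        rw [Fin.cons_zero, Fin.cons_succ]
        exact hdis j
      · intro _
        rw [Fin.cons_zero, Fin.cons_succ]
        exact (hdis i).symm
      · intro h
        rw [Fin.cons_succ, Fin.cons_succ]
        exact hd i j fun h' => h (by rw [h'])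

theorem union_many {d : ℕ} (hodd : Odd d) [FiniteDimensional ℝ E]
    (hd : Module.finrank ℝ E = d) (k c r : ℕ) : ∃ N : ℕ, ∀ (m : ℕ) (W : Finset E)
      (C : Fin r → Finset E), GenPos d (W ∪ Finset.univ.biUnion C) →
      (∀ j, Scales d c (W ∪ C j) (C j)) → m * N ≤ (Finset.univ.biUnion C).card →
      ∃ H : Fin m → Finset E,
        (∀ i, (∃ j, H i ⊆ C j) ∧ Hole k (W ∪ Finset.univ.biUnion C) (H i)) ∧
        ∀ i j, i ≠ j → Disjoint (convexHull ℝ (H i : Set E)) (convexHull ℝ (H j : Set E)) := by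
  obtain ⟨N, hN⟩ := union_hole (E := E) hodd hd k c r
  refine ⟨N + 1, fun m W C hP hv hc => ?_⟩
  obtain ⟨f, hf⟩ := exists_inj (Finset.univ.biUnion C)
  obtain ⟨a, ha⟩ : ∃ a : ℝ, ∀ x ∈ Finset.univ.biUnion C, a < f x := by
    rcases (Finset.univ.biUnion C).eq_empty_or_nonempty with h0 | h0
    · exact ⟨0, fun x hx => by rw [h0] at hx; exact absurd hx (Finset.notMem_empty x)⟩
    · obtain ⟨y, -, hy⟩ := Finset.exists_min_image _ f h0
      exact ⟨f y - 1, fun x hx => by linarith [hy x hx]⟩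
  obtain ⟨H, h1, h2⟩ := many_holes f hN m W C hf hP hv a
    (by rw [Finset.filter_true_of_mem ha]; exact hc)
  exact ⟨H, fun i => ⟨(h1 i).1, (h1 i).2.2⟩, h2⟩

end Pool.Agent.H70.CC
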