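import Pool.Agent.H70.CC.Rich

/-!
Sets on quadrics are rich in holes: if the quadratic form takes only positive values on the differences of the
points of a subset `T` of a quadric, then the convex hull of `T` meets the quadric only in `T`.
-/

set_option autoImplicit false

namespace Pool.Agent.H70.CC

variable {E : Type*} [AddCommGroup E] [Module ℝ E]

theorem quad_identity (β : E →ₗ[ℝ] E →ₗ[ℝ] ℝ) {ι : Type*} (s : Finset ι) (w : ι → ℝ) (z : ι → E)
    (hw : ∑ i ∈ s, w i = 1) :
    ∑ i ∈ s, ∑ j ∈ s, w i * w j * β (z i - z j) (z i - z j) =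
      2 * ∑ i ∈ s, w i * β (z i) (z i) - 2 * β (∑ i ∈ s, w i • z i) (∑ i ∈ s, w i • z i) := by
  have e1 : β (∑ i ∈ s, w i • z i) (∑ i ∈ s, w i • z i) =
      ∑ i ∈ s, ∑ j ∈ s, w i * w j * β (z i) (z j) := by
    calc β (∑ i ∈ s, w i • z i) (∑ i ∈ s, w i • z i)
        = ∑ j ∈ s, β (∑ i ∈ s, w i • z i) (w j • z j) := map_sum _ _ _
      _ = ∑ j ∈ s, ∑ i ∈ s, w i * w j * β (z i) (z j) := by
          refine Finset.sum_congr rfl fun j _ => ?_
          rw [map_sum, LinearMap.sum_apply]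
          refine Finset.sum_congr rfl fun i _ => ?_
          simp only [map_smul, LinearMap.smul_apply, smul_eq_mul]
          ring
      _ = ∑ i ∈ s, ∑ j ∈ s, w i * w j * β (z i) (z j) := Finset.sum_comm
  have e2 : ∑ i ∈ s, ∑ j ∈ s, w i * w j * β (z j) (z i) =
      ∑ i ∈ s, ∑ j ∈ s, w i * w j * β (z i) (z j) := by
    rw [Finset.sum_comm]
    refine Finset.sum_congr rfl fun i _ => Finset.sum_congr rfl fun j _ => ?_
    ring
  have e3 : ∑ i ∈ s, ∑ j ∈ s, w i * w j * β (z i) (z i) = ∑ i ∈ s, w i * β (z i) (z i) := by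
    refine Finset.sum_congr rfl fun i _ => ?_
    have : ∑ j ∈ s, w i * w j * β (z i) (z i) = (w i * β (z i) (z i)) * ∑ j ∈ s, w j := by
      rw [Finset.mul_sum]
      refine Finset.sum_congr rfl fun j _ => ?_
      ring
    rw [this, hw, mul_one]
  have e4 : ∑ i ∈ s, ∑ j ∈ s, w i * w j * β (z j) (z j) = ∑ i ∈ s, w i * β (z i) (z i) := by
    rw [Finset.sum_comm, ← e3]
    refine Finset.sum_congr rfl fun i _ => Finset.sum_congr rfl fun j _ => ?_
    ring
  have e5 : ∑ i ∈ s, ∑ j ∈ s, w i * w j * β (z i - z j) (z i - z j) =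
      (∑ i ∈ s, ∑ j ∈ s, w i * w j * β (z i) (z i)) + (∑ i ∈ s, ∑ j ∈ s, w i * w j * β (z j) (z j)) -
        (∑ i ∈ s, ∑ j ∈ s, w i * w j * β (z i) (z j)) -
        ∑ i ∈ s, ∑ j ∈ s, w i * w j * β (z j) (z i) := by
    simp only [← Finset.sum_add_distrib, ← Finset.sum_sub_distrib]
    refine Finset.sum_congr rfl fun i _ => Finset.sum_congr rfl fun j _ => ?_
    simp only [map_sub, LinearMap.sub_apply]
    ring
  rw [e5, e3, e4, e2, e1]
  ring

theorem quad_pos (β : E →ₗ[ℝ] E →ₗ[ℝ] ℝ) (l : E →ₗ[ℝ] ℝ) (c : ℝ) {T : Finset E}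
    (hT : ∀ x ∈ T, β x x + l x + c = 0)
    (hpos : ∀ a ∈ T, ∀ b ∈ T, a ≠ b → 0 < β (a - b) (a - b)) {p : E}
    (hp : p ∈ convexHull ℝ (T : Set E)) (hq : β p p + l p + c = 0) : p ∈ T := by
  classical
  rw [Finset.mem_convexHull'] at hp
  obtain ⟨w, hw0, hw1, hwp⟩ := hp
  have h1 := quad_identity β T w id hw1
  simp only [id] at h1
  rw [hwp] at h1
  have h2 : ∑ a ∈ T, w a * β a a = - l p - c := by
    have h3 : ∑ a ∈ T, w a * (β a a + l a + c) = 0 :=
      Finset.sum_eq_zero fun a ha => by rw [hT a ha, mul_zero]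
    have h4 : ∑ a ∈ T, w a * (β a a + l a + c) = ∑ a ∈ T, w a * β a a + l p + c := by
      rw [← hwp, map_sum]
      simp only [mul_add, Finset.sum_add_distrib, map_smul, smul_eq_mul]
      rw [← Finset.sum_mul, hw1, one_mul]
    linarith
  have h5 : ∑ a ∈ T, ∑ b ∈ T, w a * w b * β (a - b) (a - b) = 0 := by
    rw [h1, h2]
    linarith
  have hnn : ∀ a ∈ T, ∀ b ∈ T, 0 ≤ w a * w b * β (a - b) (a - b) := by
    intro a ha b hb
    rcases eq_or_ne a b with rfl | hab
    · simp
    · exact mul_nonneg (mul_nonneg (hw0 a ha) (hw0 b hb)) (hpos a ha b hb hab).le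
  have h6 : ∀ a ∈ T, ∀ b ∈ T, w a * w b * β (a - b) (a - b) = 0 := by
    intro a ha b hb
    have h7 := (Finset.sum_eq_zero_iff_of_nonneg
      (fun a ha => Finset.sum_nonneg (hnn a ha))).1 h5 a ha
    exact (Finset.sum_eq_zero_iff_of_nonneg (hnn a ha)).1 h7 b hb
  obtain ⟨a, ha, hwa⟩ : ∃ a ∈ T, w a ≠ 0 := by
    by_contra hno
    push Not at hno
    rw [Finset.sum_eq_zero hno] at hw1
    exact zero_ne_one hw1
  have h8 : ∀ b ∈ T, b ≠ a → w b = 0 := by
    intro b hb hba
    have h9 := h6 a ha b hb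
    rcases mul_eq_zero.1 h9 with h | h
    · exact (mul_eq_zero.1 h).resolve_left hwa
    · exact absurd h (hpos a ha b hb hba.symm).ne'
  have h10 : w a = 1 := by
    rw [Finset.sum_eq_single a h8 (fun h => absurd ha h)] at hw1
    exact hw1
  have h11 : p = a := by
    rw [← hwp, Finset.sum_eq_single a (fun b hb hba => by rw [h8 b hb hba, zero_smul])
      (fun h => absurd ha h), h10, one_smul]
  rw [h11]
  exact ha

theorem quad_zero [FiniteDimensional ℝ E] {d : ℕ} (hd : Module.finrank ℝ E = d)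
    (β : E →ₗ[ℝ] E →ₗ[ℝ] ℝ) (l : E →ₗ[ℝ] ℝ) (c : ℝ) {S : Finset E}
    (hS : AffineIndependent ℝ (fun x : S => (x : E))) (hc : S.card = d + 1)
    (hq : ∀ x ∈ S, β x x + l x + c = 0)
    (h0 : ∀ a ∈ S, ∀ b ∈ S, β (a - b) (a - b) = 0) (y : E) : β y y + l y + c = 0 := by
  have htop : affineSpan ℝ (Set.range (fun x : S => (x : E))) = ⊤ := by
    rw [hS.affineSpan_eq_top_iff_card_eq_finrank_add_one, Fintype.card_coe, hc, hd]
  have hy : y ∈ affineSpan ℝ (Set.range (fun x : S => (x : E))) := by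
    rw [htop]
    exact AffineSubspace.mem_top ℝ E y
  obtain ⟨w, hw1, hwy⟩ := eq_affineCombination_of_mem_affineSpan_of_fintype hy
  rw [Finset.affineCombination_eq_linear_combination _ _ _ hw1] at hwy
  have h1 := quad_identity β Finset.univ w (fun x : S => (x : E)) hw1
  rw [← hwy] at h1
  have h5 : (∑ i : S, ∑ j : S, w i * w j * β ((i : E) - j) ((i : E) - j)) = 0 :=
    Finset.sum_eq_zero fun i _ => Finset.sum_eq_zero fun j _ => by rw [h0 i i.2 j j.2, mul_zero]
  have h2 : ∑ i : S, w i * β (i : E) (i : E) = - l y - c := by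
    have h3 : ∑ i : S, w i * (β (i : E) (i : E) + l i + c) = 0 :=
      Finset.sum_eq_zero fun a _ => by rw [hq a a.2, mul_zero]
    have h4 : ∑ i : S, w i * (β (i : E) (i : E) + l i + c) =
        ∑ i : S, w i * β (i : E) (i : E) + l y + c := by
      rw [hwy, map_sum]
      simp only [mul_add, Finset.sum_add_distrib, map_smul, smul_eq_mul]
      rw [← Finset.sum_mul, hw1, one_mul]
    linarith
  rw [h5, h2] at h1
  linarith

theorem quad_rich [DecidableEq E] [FiniteDimensional ℝ E] {d : ℕ}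
    (hd : Module.finrank ℝ E = d) :
    ∃ f : ℕ → ℕ, ∀ (β : E →ₗ[ℝ] E →ₗ[ℝ] ℝ) (l : E →ₗ[ℝ] ℝ) (c : ℝ) (C : Finset E), GenPos d C →
      (∃ y, β y y + l y + c ≠ 0) → (∀ x ∈ C, β x x + l x + c = 0) → Rich f C := by
  classical
  choose f hf using fun t : ℕ => ramsey_values (α := E) 3 2 (max t (d + 1))
  refine ⟨f, fun β l c C hC hy hq t X hX hc => ?_⟩
  set χ : Finset E → ℕ := fun S =>
    if ∃ a ∈ S, ∃ b ∈ S, 0 < β (a - b) (a - b) then 1 else
      if ∃ a ∈ S, ∃ b ∈ S, β (a - b) (a - b) < 0 then 2 else 0 with hχ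
  obtain ⟨T, hTX, hTc, v, hv⟩ := hf t X χ hc (by
    refine (Finset.card_le_card (t := {0, 1, 2}) ?_).trans (by decide)
    intro n hn
    obtain ⟨S, -, rfl⟩ := Finset.mem_image.1 hn
    simp only [hχ]
    split_ifs <;> simp)
  have hsym : ∀ a b : E, β (b - a) (b - a) = β (a - b) (a - b) := by
    intro a b
    rw [← neg_sub a b]
    simp only [map_neg, LinearMap.neg_apply, neg_neg]
  have hqT : ∀ x ∈ T, β x x + l x + c = 0 := fun x hx => hq x (hX (hTX hx))
  obtain ⟨T', hT', hTc'⟩ := Finset.exists_subset_card_eq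
    (show t ≤ T.card by rw [hTc]; exact le_max_left _ _)
  have fin : (∀ U ⊆ T, ∀ p, p ∈ convexHull ℝ (U : Set E) → β p p + l p + c = 0 → p ∈ U) →
      ∃ T ⊆ X, T.card = t ∧ Cvx T ∧ ∀ p ∈ C, p ∈ convexHull ℝ (T : Set E) → p ∈ T := by
    intro hU
    refine ⟨T', hT'.trans hTX, hTc', fun p hp hm => ?_, fun p hp hm => hU T' hT' p hm (hq p hp)⟩
    have := hU (T'.erase p) ((Finset.erase_subset _ _).trans hT') p hm (hqT p (hT' hp))
    exact Finset.notMem_erase p T' this
  have hcol : ∀ a ∈ T, ∀ b ∈ T, a ≠ b → χ {a, b} = v := fun a ha b hb hab =>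
    hv {a, b} (by
      intro x hx
      rcases Finset.mem_insert.1 hx with rfl | hx
      · exact ha
      · rw [Finset.mem_singleton.1 hx]
        exact hb) (Finset.card_pair hab)
  by_cases h1 : v = 1
  · refine fin fun U hU p hp hqp =>
      quad_pos β l c (fun x hx => hqT x (hU hx)) (fun a ha b hb hab => ?_) hp hqp
    have h2 := hcol a (hU ha) b (hU hb) hab
    rw [h1] at h2
    have h3 : ∃ a' ∈ ({a, b} : Finset E), ∃ b' ∈ ({a, b} : Finset E),
        0 < β (a' - b') (a' - b') := by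
      by_contra hno
      simp only [hχ, if_neg hno] at h2
      split_ifs at h2 <;> omega
    obtain ⟨a', ha', b', hb', h4⟩ := h3
    simp only [Finset.mem_insert, Finset.mem_singleton] at ha' hb'
    rcases ha' with e1 | e1 <;> rcases hb' with e2 | e2 <;> rw [e1, e2] at h4
    · simp at h4
    · exact h4
    · rw [hsym a b] at h4
      exact h4
    · simp at h4
  by_cases h1' : v = 2
  · refine fin fun U hU p hp hqp =>
      quad_pos (-β) (-l) (-c) (fun x hx => ?_) (fun a ha b hb hab => ?_) hp ?_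
    · have := hqT x (hU hx)
      simp only [LinearMap.neg_apply]
      linarith
    · have h2 := hcol a (hU ha) b (hU hb) hab
      rw [h1'] at h2
      have h3 : ∃ a' ∈ ({a, b} : Finset E), ∃ b' ∈ ({a, b} : Finset E),
          β (a' - b') (a' - b') < 0 := by
        by_contra hno
        simp only [hχ, if_neg hno] at h2
        split_ifs at h2 <;> omega
      obtain ⟨a', ha', b', hb', h4⟩ := h3
      simp only [Finset.mem_insert, Finset.mem_singleton] at ha' hb'
      have h5 : β (a - b) (a - b) < 0 := by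
        rcases ha' with e1 | e1 <;> rcases hb' with e2 | e2 <;> rw [e1, e2] at h4
        · simp at h4
        · exact h4
        · rw [hsym a b] at h4
          exact h4
        · simp at h4
      simp only [LinearMap.neg_apply]
      linarith
    · simp only [LinearMap.neg_apply]
      linarith
  · exfalso
    have hz : ∀ a ∈ T, ∀ b ∈ T, β (a - b) (a - b) = 0 := by
      intro a ha b hb
      rcases eq_or_ne a b with rfl | hab
      · simp
      · have h2 := hcol a ha b hb hab
        by_contra hne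
        have h3 : χ {a, b} = 1 ∨ χ {a, b} = 2 := by
          simp only [hχ]
          rcases lt_or_gt_of_ne hne with h4 | h4
          · split_ifs with g1 g2
            · exact Or.inl rfl
            · exact Or.inr rfl
            · exact absurd ⟨a, by simp, b, by simp, h4⟩ g2
          · rw [if_pos ⟨a, by simp, b, by simp, h4⟩]
            exact Or.inl rfl
        rw [h2] at h3
        omega
    obtain ⟨S, hS, hSc⟩ := Finset.exists_subset_card_eq
      (show d + 1 ≤ T.card by rw [hTc]; exact le_max_right _ _)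
    obtain ⟨y, hy⟩ := hy
    exact hy (quad_zero hd β l c (hC S ((hS.trans hTX).trans hX) hSc) hSc
      (fun x hx => hqT x (hS hx)) (fun a ha b hb => hz a (hS ha) b (hS hb)) y)

/-- Sets with few further points in each simplex are rich in holes. -/
theorem few_rich [DecidableEq E] [FiniteDimensional ℝ E] {d : ℕ}
    (hd : Module.finrank ℝ E = d) (K : ℕ) (hK : Odd d ∨ K = 0) :
    ∃ f : ℕ → ℕ, ∀ C : Finset E, GenPos d C →
      (∀ S ⊆ C, S.card = d + 1 → cnt C S ≤ K) → Rich f C := by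
  classical
  rcases hK with hodd | rfl
  · obtain ⟨L, hL⟩ := exists_len d K
    choose f hf using fun t : ℕ => exists_hole (E := E) hodd hd (1 * L) t
    refine ⟨f, fun C hC hcnt t X hX hc => ?_⟩
    have hco : Coarse d 1 K C X := by
      refine ⟨fun _ => 1, fun S hS hSc => ?_⟩
      rcases Nat.eq_zero_or_pos (cnt C S) with h0 | h0
      · exact Or.inl h0
      · exact Or.inr ⟨0, h0, by rw [mul_one]; exact hcnt S (hS.trans hX) hSc⟩
    obtain ⟨T, hT, hTc, hTcv, hTe⟩ := hf t C X hC hX hc (hco.scales hL)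
    exact ⟨T, hT, hTc, hTcv, hTe⟩
  · refine ⟨fun t => max t (d + 2), fun C hC hcnt t X hX hc => ?_⟩
    have hXt : t ≤ X.card := (le_max_left _ _).trans hc
    have hXd : d + 2 ≤ X.card := (le_max_right _ _).trans hc
    have hfull : ∀ S ⊆ X, S.card = d + 1 → ∀ p ∈ C, p ∈ convexHull ℝ (S : Set E) → p ∈ S := by
      intro S hS hSc p hp hm
      have h1 : cnt C S = 0 := Nat.le_zero.1 (hcnt S (hS.trans hX) hSc)
      by_contra hpS
      have h2 : p ∈ (C \ S).filter (fun p => p ∈ convexHull ℝ (S : Set E)) :=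
        Finset.mem_filter.2 ⟨Finset.mem_sdiff.2 ⟨hp, hpS⟩, hm⟩
      unfold cnt at h1
      rw [Finset.card_eq_zero] at h1
      rw [h1] at h2
      exact absurd h2 (Finset.notMem_empty p)
    have hcv : Cvx X := by
      intro p hp hm
      obtain ⟨S, hS, hSc, hpS⟩ := carath hd
        (by rw [Finset.card_erase_of_mem hp]; omega) hm
      have := hfull S (hS.trans (Finset.erase_subset _ _)) hSc p (hX hp) hpS
      exact Finset.notMem_erase p X (hS this)
    obtain ⟨T, hT, hTc⟩ := Finset.exists_subset_card_eq hXt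
    refine ⟨T, hT, hTc, hcv.mono hT, fun p hp hm => ?_⟩
    have hpX : p ∈ X := by
      obtain ⟨S, hS, hSc, hpS⟩ := carath hd (by omega : d + 1 ≤ X.card)
        (convexHull_mono (by exact_mod_cast hT) hm)
      exact hS (hfull S hS hSc p hp hpS)
    by_contra hpT
    refine hcv p hpX (convexHull_mono ?_ hm)
    intro x hx
    have hx' : x ∈ T := by exact_mod_cast hx
    have hxp : x ≠ p := by
      rintro rfl
      exact hpT hx'
    exact Finset.mem_coe.2 (Finset.mem_erase.2 ⟨hxp, hT hx'⟩)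

/-- Sets covered by quadrics and sets with few further points in each simplex. -/
theorem covered [DecidableEq E] [FiniteDimensional ℝ E] {d : ℕ}
    (hd : Module.finrank ℝ E = d) (k r K : ℕ) (hK : Odd d ∨ K = 0) :
    ∃ N : ℕ, ∀ (m : ℕ) (P : Finset E) (C : Fin r → Finset E), GenPos d P → (∀ j, C j ⊆ P) →
      (∀ j, (∃ (β : E →ₗ[ℝ] E →ₗ[ℝ] ℝ) (l : E →ₗ[ℝ] ℝ) (c : ℝ), (∃ y, β y y + l y + c ≠ 0) ∧
          ∀ x ∈ C j, β x x + l x + c = 0) ∨
        ∀ S ⊆ C j, S.card = d + 1 → cnt (C j) S ≤ K) →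
      N * (m + (P \ Finset.univ.biUnion C).card) ≤ (Finset.univ.biUnion C).card →
      ∃ H : Fin m → Finset E, (∀ i, (∃ j, H i ⊆ C j) ∧ Hole k P (H i)) ∧
        ∀ i j, i ≠ j → Disjoint (convexHull ℝ (H i : Set E)) (convexHull ℝ (H j : Set E)) := by
  obtain ⟨f, hf⟩ := quad_rich (E := E) hd
  obtain ⟨g, hg⟩ := few_rich (E := E) hd K hK
  obtain ⟨N, hN⟩ := rich_most (E := E) (fun t => max (f t) (g t)) k r
  refine ⟨N, fun m P C hP hCP hC hc => hN m P C hCP (fun j => ?_) hc⟩
  have hj : GenPos d (C j) := hP.mono (hCP j)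
  rcases hC j with ⟨β, l, c, h1, h2⟩ | h
  · exact (hf β l c (C j) hj h1 h2).le fun t => le_max_left _ _
  · exact (hg (C j) hj h).le fun t => le_max_right _ _

end Pool.Agent.H70.CC
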