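import Mathlib

/-!
The finite Ramsey theorem for colourings of the `r`-subsets.
-/

set_option autoImplicit false

namespace Pool.Agent.H70.CC

variable {α : Type*} [DecidableEq α]

/-- `N` is large enough: every colouring of the `r`-subsets of a set with at least `N` elements has for
some colour `j` a homogeneous set of size `m j`. -/
def Good (α : Type*) [DecidableEq α] (c r : ℕ) (m : Fin c → ℕ) (N : ℕ) : Prop :=
  ∀ (S : Finset α) (χ : Finset α → Fin c), N ≤ S.card →
    ∃ (j : Fin c) (T : Finset α), T ⊆ S ∧ T.card = m j ∧ ∀ A ⊆ T, A.card = r → χ A = j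

theorem ramsey (c : ℕ) : ∀ (r : ℕ) (m : Fin c → ℕ), ∃ N : ℕ, Good α c r m N := by
  intro r
  induction r with
  | zero =>
    intro m
    refine ⟨∑ j, m j, fun S χ hS => ?_⟩
    obtain ⟨T, hT, hTc⟩ := Finset.exists_subset_card_eq
      ((Finset.single_le_sum (fun _ _ => Nat.zero_le _) (Finset.mem_univ (χ ∅))).trans hS :
        m (χ ∅) ≤ S.card)
    exact ⟨χ ∅, T, hT, hTc, fun A _ hA => by rw [Finset.card_eq_zero.1 hA]⟩
  | succ r ihr =>
    have key : ∀ (n : ℕ) (m : Fin c → ℕ), ∑ j, m j = n → ∃ N : ℕ, Good α c (r + 1) m N := by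
      intro n
      induction n with
      | zero =>
        intro m hm
        refine ⟨0, fun S χ _ => ⟨χ ∅, ∅, Finset.empty_subset _, ?_, ?_⟩⟩
        · have := Finset.sum_eq_zero_iff.1 hm (χ ∅) (Finset.mem_univ _)
          rw [this, Finset.card_empty]
        · intro A hA hc
          rw [Finset.subset_empty.1 hA] at hc
          simp at hc
      | succ n ihn =>
        intro m hm
        by_cases h0 : ∃ j, m j = 0
        · obtain ⟨j, hj⟩ := h0
          refine ⟨0, fun S χ _ => ⟨j, ∅, Finset.empty_subset _, ?_, ?_⟩⟩
          · rw [hj, Finset.card_empty]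
          · intro A hA hc
            rw [Finset.subset_empty.1 hA] at hc
            simp at hc
        · push Not at h0
          have hsum : ∀ j, ∑ i, Function.update m j (m j - 1) i = n := by
            intro j
            rw [Finset.sum_update_of_mem (Finset.mem_univ j)]
            have h1 := Finset.add_sum_erase (Finset.univ) m (Finset.mem_univ j)
            rw [Finset.sdiff_singleton_eq_erase]
            have h2 := h0 j
            omega
          choose Nf hNf using fun j => ihn (Function.update m j (m j - 1)) (hsum j)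
          obtain ⟨N, hN⟩ := ihr Nf
          refine ⟨N + 1, fun S χ hS => ?_⟩
          obtain ⟨a, ha⟩ : S.Nonempty := Finset.card_pos.1 (by omega)
          obtain ⟨j, T, hT, hTc, hTh⟩ := hN (S.erase a) (fun B => χ (insert a B))
            (by rw [Finset.card_erase_of_mem ha]; omega)
          obtain ⟨j', T', hT', hTc', hTh'⟩ := hNf j T χ hTc.ge
          by_cases hjj : j' = j
          · subst hjj
            rw [Function.update_self] at hTc'
            have haT : a ∉ T' := fun h => Finset.notMem_erase a S (hT (hT' h))
            refine ⟨j', insert a T', ?_, ?_, ?_⟩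
            · exact Finset.insert_subset ha ((hT'.trans hT).trans (Finset.erase_subset _ _))
            · rw [Finset.card_insert_of_notMem haT, hTc']
              have := h0 j'
              omega
            · intro A hA hAc
              by_cases haA : a ∈ A
              · have h3 : A.erase a ⊆ T := by
                  intro x hx
                  obtain ⟨h4, h5⟩ := Finset.mem_erase.1 hx
                  exact hT' ((Finset.mem_insert.1 (hA h5)).resolve_left h4)
                have h6 := hTh (A.erase a) h3 (by rw [Finset.card_erase_of_mem haA, hAc]; rfl)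
                simpa [Finset.insert_erase haA] using h6
              · refine hTh' A (fun x hx => ?_) hAc
                refine (Finset.mem_insert.1 (hA hx)).resolve_left fun h => haA (h ▸ hx)
          · rw [Function.update_of_ne hjj] at hTc'
            exact ⟨j', T', (hT'.trans hT).trans (Finset.erase_subset _ _), hTc', hTh'⟩
    exact fun m => key _ m rfl

/-- Ramsey's theorem for colourings of the `r`-subsets with at most `c` values. -/
theorem ramsey_values (c r m : ℕ) : ∃ N : ℕ, ∀ (S : Finset α) (χ : Finset α → ℕ), N ≤ S.card →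
    ((S.powersetCard r).image χ).card ≤ c →
    ∃ T ⊆ S, T.card = m ∧ ∃ v : ℕ, ∀ A ⊆ T, A.card = r → χ A = v := by
  rcases Nat.eq_zero_or_pos c with rfl | hc
  · refine ⟨r, fun S χ hS h => ?_⟩
    obtain ⟨A, hA, hAc⟩ := Finset.exists_subset_card_eq hS
    have h1 : χ A ∈ (S.powersetCard r).image χ :=
      Finset.mem_image_of_mem _ (Finset.mem_powersetCard.2 ⟨hA, hAc⟩)
    rw [Nat.le_zero, Finset.card_eq_zero] at h
    rw [h] at h1
    exact absurd h1 (Finset.notMem_empty _)
  · obtain ⟨N, hN⟩ := ramsey (α := α) c r (fun _ => m)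
    refine ⟨N, fun S χ hS h => ?_⟩
    set V := (S.powersetCard r).image χ with hV
    have e : V ↪ Fin c := (Fintype.equivFin V).toEmbedding.trans
      (Fin.castLEEmb (by rwa [Fintype.card_coe]))
    obtain ⟨j, T, hT, hTc, hTh⟩ := hN S
      (fun A => if h : χ A ∈ V then e ⟨χ A, h⟩ else ⟨0, hc⟩) hS
    refine ⟨T, hT, hTc, ?_⟩
    have hmem : ∀ A ⊆ T, A.card = r → χ A ∈ V := fun A hA hAc =>
      Finset.mem_image_of_mem _ (Finset.mem_powersetCard.2 ⟨hA.trans hT, hAc⟩)
    by_cases hex : ∃ A ⊆ T, A.card = r
    · obtain ⟨A, hA, hAc⟩ := hex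
      refine ⟨χ A, fun B hB hBc => ?_⟩
      have h1 := hTh A hA hAc
      have h2 := hTh B hB hBc
      simp only [dif_pos (hmem A hA hAc)] at h1
      simp only [dif_pos (hmem B hB hBc)] at h2
      have h3 := e.injective (h2.trans h1.symm)
      exact congrArg Subtype.val h3
    · exact ⟨0, fun A hA hAc => absurd ⟨A, hA, hAc⟩ hex⟩

end Pool.Agent.H70.CC
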