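import Pool.Agent.H70.CC.Slice

/-!
Unions of sets which are hereditarily rich in holes.
-/

set_option autoImplicit false

namespace Pool.Agent.H70.CC

variable {E : Type*} [AddCommGroup E] [Module ℝ E] [DecidableEq E]

/-- Every subset of `C` with at least `f t` elements contains a hole of `C` with `t` elements. -/
def Rich (f : ℕ → ℕ) (C : Finset E) : Prop :=
  ∀ t, ∀ X ⊆ C, f t ≤ X.card → ∃ T ⊆ X, T.card = t ∧ Cvx T ∧
    ∀ p ∈ C, p ∈ convexHull ℝ (T : Set E) → p ∈ T

theorem Rich.mono {f : ℕ → ℕ} {A C : Finset E} (h : Rich f C) (hA : A ⊆ C) : Rich f A := by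
  intro t X hX hc
  obtain ⟨T, hT, h1, h2, h3⟩ := h t X (hX.trans hA) hc
  exact ⟨T, hT, h1, h2, fun p hp => h3 p (hA hp)⟩

theorem Rich.le {f g : ℕ → ℕ} {C : Finset E} (h : Rich f C) (hfg : ∀ t, f t ≤ g t) : Rich g C :=
  fun t X hX hc => h t X hX ((hfg t).trans hc)

theorem rich_union (f : ℕ → ℕ) (k : ℕ) : ∀ r : ℕ, ∃ N : ℕ, ∀ (C : Fin r → Finset E),
      (∀ j, Rich f (C j)) → N ≤ (Finset.univ.biUnion C).card →
      ∃ H, (∃ j, H ⊆ C j) ∧ Hole k (Finset.univ.biUnion C) H := by
  classical
  intro r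
  induction r with
  | zero =>
    refine ⟨1, fun C _ h => ?_⟩
    simp at h
  | succ r ih =>
    obtain ⟨Nr, hNr⟩ := ih
    set N := f (k * (Nr + 1)) with hN
    refine ⟨(r + 1) * N + 1, fun C hval hcard => ?_⟩
    obtain ⟨j, hj⟩ : ∃ j, N ≤ (C j).card := by
      by_contra hno
      push Not at hno
      have h2 : (Finset.univ.biUnion C).card ≤ ∑ j : Fin (r + 1), (C j).card :=
        Finset.card_biUnion_le
      have h3 : ∑ j : Fin (r + 1), (C j).card ≤ (r + 1) * N := by
        have := Finset.sum_le_card_nsmul (Finset.univ : Finset (Fin (r + 1)))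
          (fun j => (C j).card) N (fun j _ => (hno j).le)
        simpa using this
      omega
    set P := Finset.univ.biUnion C with hPdef
    have hCP : ∀ i, C i ⊆ P := fun i => Finset.subset_biUnion_of_mem C (Finset.mem_univ i)
    obtain ⟨T, hTC, hTc, hcv, hTe⟩ := hval j (k * (Nr + 1)) (C j) le_rfl hj
    set Q := P.filter (fun p => p ∈ convexHull ℝ (T : Set E) ∧ p ∉ T) with hQ
    obtain ⟨g, hg⟩ := exists_inj T
    by_cases hcase : k * (Q.card + 1) ≤ T.card
    · obtain ⟨B, hB, hBk, hBq⟩ := block g k Q.card Q T le_rfl hg hcase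
      refine ⟨B, ⟨j, hB.trans hTC⟩, (hB.trans hTC).trans (hCP j), hBk, hcv.mono hB,
        fun p hp hm => ?_⟩
      have hpT : p ∈ T := by
        by_contra hpT
        exact hBq p (Finset.mem_filter.2 ⟨hp, convexHull_mono (by exact_mod_cast hB) hm, hpT⟩) hm
      by_contra hpB
      refine hcv p hpT (convexHull_mono ?_ hm)
      intro x hx
      have hx' : x ∈ B := by exact_mod_cast hx
      have hxp : x ≠ p := by
        rintro rfl
        exact hpB hx'
      exact Finset.mem_coe.2 (Finset.mem_erase.2 ⟨hxp, hB hx'⟩)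
    · set C' : Fin r → Finset E := fun i => (C (j.succAbove i)).filter
        (fun p => p ∈ convexHull ℝ (T : Set E) ∧ p ∉ T) with hC'
      have hQe : Q = Finset.univ.biUnion C' := by
        ext p
        constructor
        · intro hp
          obtain ⟨h1, h2, h3⟩ := Finset.mem_filter.1 hp
          obtain ⟨i, -, hi⟩ := Finset.mem_biUnion.1 h1
          have hij : i ≠ j := by
            rintro rfl
            exact h3 (hTe p hi h2)
          obtain ⟨i', hi'⟩ := Fin.exists_succAbove_eq hij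
          refine Finset.mem_biUnion.2 ⟨i', Finset.mem_univ _, ?_⟩
          exact Finset.mem_filter.2 ⟨by rw [hi']; exact hi, h2, h3⟩
        · intro hp
          obtain ⟨i, -, hi⟩ := Finset.mem_biUnion.1 hp
          obtain ⟨h1, h2⟩ := Finset.mem_filter.1 hi
          exact Finset.mem_filter.2 ⟨hCP _ h1, h2⟩
      have hQP : Q ⊆ P := Finset.filter_subset _ _
      have hreg : ∀ X : Finset E, (∀ x ∈ X, x ∈ convexHull ℝ (T : Set E) ∧ x ∉ T) →
          ∀ p ∈ convexHull ℝ (X : Set E), p ∈ convexHull ℝ (T : Set E) ∧ p ∉ T := by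
        intro X hX p hp
        have h1 : (X : Set E) ⊆ convexHull ℝ (T : Set E) := fun x hx => (hX x hx).1
        exact ⟨convexHull_min h1 (convex_convexHull ℝ _) hp, fun hpT =>
          notMem_hull hcv hpT h1 (fun h => (hX p h).2 hpT) hp⟩
      have hval' : ∀ i, Rich f (C' i) := fun i =>
        (hval (j.succAbove i)).mono (Finset.filter_subset _ _)
      have hQc : Nr ≤ (Finset.univ.biUnion C').card := by
        rw [← hQe]
        by_contra hno
        push Not at hno hcase
        rw [hTc] at hcase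
        have : k * (Q.card + 1) ≤ k * (Nr + 1) := Nat.mul_le_mul_left k (by omega)
        omega
      obtain ⟨H, ⟨i, hHs⟩, hH1, hH2, hH3, hH4⟩ := hNr C' hval' hQc
      rw [← hQe] at hH1 hH4
      refine ⟨H, ⟨j.succAbove i, hHs.trans (Finset.filter_subset _ _)⟩, hH1.trans hQP, hH2, hH3,
        fun p hp hm => ?_⟩
      obtain ⟨h3, h4⟩ := hreg H (fun x hx => (Finset.mem_filter.1 (hH1 hx)).2) p hm
      exact hH4 p (Finset.mem_filter.2 ⟨hp, h3, h4⟩) hm

omit [DecidableEq E] in
/-- Disjoint slices with `s` points each, which contain all points of `C` in their hulls. -/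
theorem slices' (f : E →ₗ[ℝ] ℝ) {s : ℕ} (hs : 1 ≤ s) (m : ℕ) :
    ∀ C : Finset E, Set.InjOn f (C : Set E) → m * s ≤ C.card →
      ∃ D : Fin m → Finset E, (∀ i, D i ⊆ C ∧ (D i).card = s ∧
          ∀ p ∈ C, p ∈ convexHull ℝ (D i : Set E) → p ∈ D i) ∧
        ∀ i j, i ≠ j → Disjoint (convexHull ℝ (D i : Set E)) (convexHull ℝ (D j : Set E)) := by
  induction m with
  | zero => exact fun C _ _ => ⟨fun i => i.elim0, fun i => i.elim0, fun i => i.elim0⟩
  | succ m ih =>
    intro C hf hc
    have hc' : m * s + s ≤ C.card := by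
      have : (m + 1) * s = m * s + s := by ring
      omega
    obtain ⟨b, hb⟩ := lowest hf hs (show s ≤ C.card by omega)
    have hsum : (C.filter (fun x => f x ≤ b)).card + (C.filter (fun x => b < f x)).card =
        C.card := by
      rw [← Finset.card_filter_add_card_filter_not (s := C) (fun x => f x ≤ b)]
      simp only [not_le]
    obtain ⟨D, h1, h2⟩ := ih (C.filter (fun x => b < f x))
      (hf.mono (by exact_mod_cast Finset.filter_subset _ _)) (by omega)
    have hgt : ∀ i, ∀ q ∈ convexHull ℝ (D i : Set E), b < f q := fun i q hq =>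
      hull_gt (fun x hx => (Finset.mem_filter.1 ((h1 i).1 hx)).2) hq
    have hdis : ∀ i, Disjoint
        (convexHull ℝ ((C.filter (fun x => f x ≤ b) : Finset E) : Set E))
        (convexHull ℝ (D i : Set E)) := fun i =>
      Set.disjoint_left.2 fun q h3 h4 =>
        absurd (hull_le (fun x hx => (Finset.mem_filter.1 hx).2) h3) (not_le.2 (hgt i q h4))
    refine ⟨Fin.cons (C.filter (fun x => f x ≤ b)) D, ?_, ?_⟩
    · intro i
      refine Fin.cases ?_ (fun i => ?_) i
      · rw [Fin.cons_zero]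
        exact ⟨Finset.filter_subset _ _, hb, fun p hp hm => Finset.mem_filter.2
          ⟨hp, hull_le (fun x hx => (Finset.mem_filter.1 hx).2) hm⟩⟩
      · rw [Fin.cons_succ]
        exact ⟨(h1 i).1.trans (Finset.filter_subset _ _), (h1 i).2.1, fun p hp hm =>
          (h1 i).2.2 p (Finset.mem_filter.2 ⟨hp, hgt i p hm⟩) hm⟩
    · intro i j
      refine Fin.cases ?_ (fun i => ?_) i <;> refine Fin.cases ?_ (fun j => ?_) j
      · intro h
        exact absurd rfl h
      · intro _
        rw [Fin.cons_zero, Fin.cons_succ]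
        exact hdis j
      · intro _
        rw [Fin.cons_zero, Fin.cons_succ]
        exact (hdis i).symm
      · intro h
        rw [Fin.cons_succ, Fin.cons_succ]
        exact h2 i j fun h' => h (by rw [h'])

/-- Many holes with disjoint hulls in a union of rich sets. -/
theorem rich_many (f : ℕ → ℕ) (k r : ℕ) : ∃ N : ℕ, ∀ (m : ℕ) (C : Fin r → Finset E),
      (∀ j, Rich f (C j)) → m * N ≤ (Finset.univ.biUnion C).card →
      ∃ H : Fin m → Finset E, (∀ i, (∃ j, H i ⊆ C j) ∧ Hole k (Finset.univ.biUnion C) (H i)) ∧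
        ∀ i j, i ≠ j → Disjoint (convexHull ℝ (H i : Set E)) (convexHull ℝ (H j : Set E)) := by
  classical
  obtain ⟨N, hN⟩ := rich_union (E := E) f k r
  refine ⟨N + 1, fun m C hC hc => ?_⟩
  set P := Finset.univ.biUnion C with hP
  obtain ⟨g, hg⟩ := exists_inj P
  obtain ⟨D, h1, h2⟩ := slices' g (show 1 ≤ N + 1 by omega) m P hg hc
  have key : ∀ i, ∃ H, (∃ j, H ⊆ C j) ∧ H ⊆ D i ∧ Hole k P H := by
    intro i
    obtain ⟨h3, h4, h5⟩ := h1 i
    have hU : Finset.univ.biUnion (fun j => C j ∩ D i) = D i := by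
      ext p
      constructor
      · intro hp
        obtain ⟨j, -, hj⟩ := Finset.mem_biUnion.1 hp
        exact (Finset.mem_inter.1 hj).2
      · intro hp
        obtain ⟨j, -, hj⟩ := Finset.mem_biUnion.1 (h3 hp)
        exact Finset.mem_biUnion.2 ⟨j, Finset.mem_univ _, Finset.mem_inter.2 ⟨hj, hp⟩⟩
    obtain ⟨H, ⟨j, hj⟩, g1, g2, g3, g4⟩ := hN (fun j => C j ∩ D i)
      (fun j => (hC j).mono Finset.inter_subset_left) (by rw [hU, h4]; omega)
    rw [hU] at g1 g4
    refine ⟨H, ⟨j, hj.trans Finset.inter_subset_left⟩, g1, g1.trans h3, g2, g3,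
      fun p hp hm => g4 p (h5 p hp (convexHull_mono (by exact_mod_cast g1) hm)) hm⟩
  choose H hH1 hH2 hH3 using key
  refine ⟨H, fun i => ⟨hH1 i, hH3 i⟩, fun i j hij => ?_⟩
  exact Set.disjoint_of_subset (convexHull_mono (by exact_mod_cast hH2 i))
    (convexHull_mono (by exact_mod_cast hH2 j)) (h2 i j hij)

/-- Few further points destroy few of many holes with disjoint hulls. -/
theorem rich_most (f : ℕ → ℕ) (k r : ℕ) : ∃ N : ℕ, ∀ (m : ℕ) (P : Finset E) (C : Fin r → Finset E),
      (∀ j, C j ⊆ P) → (∀ j, Rich f (C j)) →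
      N * (m + (P \ Finset.univ.biUnion C).card) ≤ (Finset.univ.biUnion C).card →
      ∃ H : Fin m → Finset E, (∀ i, (∃ j, H i ⊆ C j) ∧ Hole k P (H i)) ∧
        ∀ i j, i ≠ j → Disjoint (convexHull ℝ (H i : Set E)) (convexHull ℝ (H j : Set E)) := by
  classical
  obtain ⟨N, hN⟩ := rich_many (E := E) f k r
  refine ⟨N, fun m P C hCP hC hc => ?_⟩
  set U := Finset.univ.biUnion C with hU
  set W := P \ U with hW
  have hUP : U ⊆ P := Finset.biUnion_subset.2 fun j _ => hCP j
  obtain ⟨H, h1, h2⟩ := hN (m + W.card) C hC (by rw [Nat.mul_comm]; exact hc)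
  set B : Finset (Fin (m + W.card)) :=
    Finset.univ.filter (fun i => ∃ w ∈ W, w ∈ convexHull ℝ (H i : Set E)) with hB
  have hBc : B.card ≤ W.card := by
    have hch : ∀ i : Fin (m + W.card), ∃ w : E, i ∈ B → w ∈ W ∧ w ∈ convexHull ℝ (H i : Set E) := by
      intro i
      by_cases hi : i ∈ B
      · obtain ⟨w, hw⟩ := (Finset.mem_filter.1 hi).2
        exact ⟨w, fun _ => hw⟩
      · exact ⟨0, fun h => absurd h hi⟩
    choose w hw using hch
    refine Finset.card_le_card_of_injOn w (fun i hi => Finset.mem_coe.2 (hw i (Finset.mem_coe.1 hi)).1) ?_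
    intro i hi j hj hij
    by_contra hne
    have h3 := (hw i (Finset.mem_coe.1 hi)).2
    have h4 := (hw j (Finset.mem_coe.1 hj)).2
    rw [← hij] at h4
    exact Set.disjoint_left.1 (h2 i j hne) h3 h4
  set G : Finset (Fin (m + W.card)) := Finset.univ.filter
    (fun i => ¬ ∃ w ∈ W, w ∈ convexHull ℝ (H i : Set E)) with hG
  have hsum : B.card + G.card = m + W.card := by
    have := Finset.card_filter_add_card_filter_not
      (s := (Finset.univ : Finset (Fin (m + W.card))))
      (fun i => ∃ w ∈ W, w ∈ convexHull ℝ (H i : Set E))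
    rw [Finset.card_univ, Fintype.card_fin] at this
    exact this
  obtain ⟨G', hG', hcard⟩ := Finset.exists_subset_card_eq (show m ≤ G.card by omega)
  let e := G'.equivFinOfCardEq hcard
  refine ⟨fun i => H (e.symm i : Fin (m + W.card)), fun i => ⟨(h1 _).1, ?_⟩, fun i j hij => ?_⟩
  · obtain ⟨g1, g2, g3, g4⟩ := (h1 (e.symm i : Fin (m + W.card))).2
    refine ⟨g1.trans hUP, g2, g3, fun p hp hm => ?_⟩
    by_cases hpU : p ∈ U
    · exact g4 p hpU hm
    · have := (Finset.mem_filter.1 (hG' (e.symm i).2)).2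
      exact absurd ⟨p, Finset.mem_sdiff.2 ⟨hp, hpU⟩, hm⟩ this
  · refine h2 _ _ fun h => hij ?_
    exact e.symm.injective (Subtype.ext h)

end Pool.Agent.H70.CC
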