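import Pool.Agent.H70.CC.Dich

/-!
Many subsets with pairwise disjoint convex hulls, each with a positive proportion of holes.
-/

set_option autoImplicit false

namespace Pool.Agent.H70.CC

theorem pow_le_choose {k s : ℕ} (h : 2 * k ≤ s) : s ^ k ≤ 2 ^ k * (k.factorial * s.choose k) := by
  rw [← Nat.descFactorial_eq_factorial_mul_choose]
  calc s ^ k ≤ (2 * (s + 1 - k)) ^ k := Nat.pow_le_pow_left (by omega) k
    _ = 2 ^ k * (s + 1 - k) ^ k := Nat.mul_pow _ _ _
    _ ≤ 2 ^ k * s.descFactorial k := Nat.mul_le_mul_left _ (Nat.pow_sub_le_descFactorial s k)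

/-- Among `2 * m` numbers there are `m` which are at most twice their mean value. -/
theorem half_good {m : ℕ} (e : Fin (2 * m) → ℕ) :
    ∃ g : Fin m → Fin (2 * m), Function.Injective g ∧ ∀ i, m * e (g i) ≤ ∑ j, e j := by
  classical
  set G : Finset (Fin (2 * m)) := Finset.univ.filter (fun i => m * e i ≤ ∑ j, e j) with hG
  set B : Finset (Fin (2 * m)) := Finset.univ.filter (fun i => ¬ m * e i ≤ ∑ j, e j) with hB
  have hsum : G.card + B.card = 2 * m := by
    have := Finset.card_filter_add_card_filter_not (s := (Finset.univ : Finset (Fin (2 * m))))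
      (fun i => m * e i ≤ ∑ j, e j)
    rw [Finset.card_univ, Fintype.card_fin] at this
    exact this
  have hBm : B.card ≤ m := by
    by_contra hcon
    push Not at hcon
    have h1 : B.card * (∑ j, e j + 1) ≤ ∑ i ∈ B, m * e i := by
      have := Finset.card_nsmul_le_sum B (fun i => m * e i) (∑ j, e j + 1) (fun i hi => by
        have := (Finset.mem_filter.1 hi).2
        omega)
      rwa [smul_eq_mul] at this
    have h2 : ∑ i ∈ B, m * e i ≤ m * ∑ j, e j := by
      rw [Finset.mul_sum]
      exact Finset.sum_le_sum_of_subset (Finset.subset_univ _)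
    have h3 : (m + 1) * (∑ j, e j + 1) ≤ B.card * (∑ j, e j + 1) := Nat.mul_le_mul_right _ hcon
    have h4 : (m + 1) * (∑ j, e j + 1) = m * (∑ j, e j) + (∑ j, e j) + m + 1 := by ring
    omega
  have hGm : m ≤ G.card := by omega
  obtain ⟨G', hG', hcard⟩ := Finset.exists_subset_card_eq hGm
  let eq := G'.equivFinOfCardEq hcard
  refine ⟨fun i => (eq.symm i : Fin (2 * m)), ?_, ?_⟩
  · intro i j hij
    exact eq.symm.injective (Subtype.ext hij)
  · intro i
    exact (Finset.mem_filter.1 (hG' (eq.symm i).2)).2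

variable {E : Type*} [AddCommGroup E] [Module ℝ E] [DecidableEq E]

omit [DecidableEq E] in
/-- Disjoint slices with `s` points each. -/
theorem slices (f : E →ₗ[ℝ] ℝ) {s : ℕ} (hs : 1 ≤ s) (m : ℕ) :
    ∀ C : Finset E, Set.InjOn f (C : Set E) → m * s ≤ C.card →
      ∃ D : Fin m → Finset E, (∀ i, D i ⊆ C ∧ (D i).card = s) ∧
        ∀ i j, i ≠ j → Disjoint (convexHull ℝ (D i : Set E)) (convexHull ℝ (D j : Set E)) := by
  induction m with
  | zero => exact fun C _ _ => ⟨fun i => i.elim0, fun i => i.elim0, fun i => i.elim0⟩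
  | succ m ih =>
    intro C hf hc
    have hc' : m * s + s ≤ C.card := by
      have : (m + 1) * s = m * s + s := by ring
      omega
    obtain ⟨b, hb⟩ := lowest hf hs (show s ≤ C.card by omega)
    have hsum : (C.filter (fun x => f x ≤ b)).card + (C.filter (fun x => b < f x)).card =
        C.card := by
      rw [← Finset.card_filter_add_card_filter_not (s := C) (fun x => f x ≤ b)]
      simp only [not_le]
    obtain ⟨D, h1, h2⟩ := ih (C.filter (fun x => b < f x))
      (hf.mono (by exact_mod_cast Finset.filter_subset _ _)) (by omega)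
    have hdis : ∀ i, Disjoint
        (convexHull ℝ ((C.filter (fun x => f x ≤ b) : Finset E) : Set E))
        (convexHull ℝ (D i : Set E)) := fun i =>
      Set.disjoint_left.2 fun q h3 h4 =>
        absurd (hull_le (fun x hx => (Finset.mem_filter.1 hx).2) h3)
          (not_le.2 (hull_gt (fun x hx => (Finset.mem_filter.1 ((h1 i).1 hx)).2) h4))
    refine ⟨Fin.cons (C.filter (fun x => f x ≤ b)) D, ?_, ?_⟩
    · intro i
      refine Fin.cases ?_ (fun i => ?_) i
      · rw [Fin.cons_zero]
        exact ⟨Finset.filter_subset _ _, hb⟩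
      · rw [Fin.cons_succ]
        exact ⟨(h1 i).1.trans (Finset.filter_subset _ _), (h1 i).2⟩
    · intro i j
      refine Fin.cases ?_ (fun i => ?_) i <;> refine Fin.cases ?_ (fun j => ?_) j
      · intro h
        exact absurd rfl h
      · intro _
        rw [Fin.cons_zero, Fin.cons_succ]
        exact hdis j
      · intro _
        rw [Fin.cons_zero, Fin.cons_succ]
        exact (hdis i).symm
      · intro h
        rw [Fin.cons_succ, Fin.cons_succ]
        exact h2 i j fun h' => h (by rw [h'])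

theorem exceptional_sum {d c K n : ℕ} {v : Fin c → ℕ} {P C : Finset E} {D : Fin n → Finset E}
    (h1 : ∀ i, D i ⊆ C)
    (h2 : ∀ i j, i ≠ j → Disjoint (convexHull ℝ (D i : Set E)) (convexHull ℝ (D j : Set E))) :
    ∑ i, (exceptional d c K v P (D i)).card ≤ (exceptional d c K v P C).card := by
  classical
  rw [← Finset.card_biUnion]
  · refine Finset.card_le_card fun S hS => ?_
    obtain ⟨i, -, hi⟩ := Finset.mem_biUnion.1 hS
    obtain ⟨h3, h4⟩ := Finset.mem_filter.1 hi
    obtain ⟨h5, h6⟩ := Finset.mem_powersetCard.1 h3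
    exact Finset.mem_filter.2 ⟨Finset.mem_powersetCard.2 ⟨h5.trans (h1 i), h6⟩, h4⟩
  · intro i _ j _ hij
    refine Finset.disjoint_left.2 fun S hS hS' => ?_
    obtain ⟨h5, h6⟩ := Finset.mem_powersetCard.1 (Finset.mem_filter.1 hS).1
    obtain ⟨h7, -⟩ := Finset.mem_powersetCard.1 (Finset.mem_filter.1 hS').1
    obtain ⟨x, hx⟩ : S.Nonempty := Finset.card_pos.1 (by omega)
    exact Set.disjoint_left.1 (h2 i j hij)
      (subset_convexHull ℝ _ (by exact_mod_cast h5 hx))
      (subset_convexHull ℝ _ (by exact_mod_cast h7 hx))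

theorem many_groups {d : ℕ} (hodd : Odd d) [FiniteDimensional ℝ E]
    (hd : Module.finrank ℝ E = d) (k c K : ℕ) : ∃ M : ℕ, ∀ (P C : Finset E) (v : Fin c → ℕ) (m : ℕ),
      GenPos d P → C ⊆ P → M * m ≤ C.card →
      M * m ^ d * (exceptional d c K v P C).card ≤ C.card ^ (d + 1) →
      ∃ D : Fin m → Finset E,
        (∀ i, D i ⊆ C ∧ C.card ^ k ≤ M * m ^ k * (holes k P (D i)).card) ∧
        ∀ i j, i ≠ j → Disjoint (convexHull ℝ (D i : Set E)) (convexHull ℝ (D j : Set E)) := by
  classical
  obtain ⟨M0, hM0⟩ := dichotomy (E := E) hodd hd k c K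
  set q := M0 + 2 * k + 2 * (d + 1) + 1 with hq
  set A := 8 ^ k * k.factorial * M0 with hA
  set B := 8 ^ (d + 1) * (d + 1).factorial * M0 with hB
  refine ⟨A + B + 1 + 2 * q, fun P C v m hP hCP hC hE => ?_⟩
  set M := A + B + 1 + 2 * q with hM
  rcases Nat.eq_zero_or_pos m with rfl | hm
  · exact ⟨fun i => i.elim0, fun i => i.elim0, fun i => i.elim0⟩
  set n := C.card with hn
  set s := n / (2 * m) with hs
  have hsq : q ≤ s := by
    rw [hs, Nat.le_div_iff_mul_le (by omega)]
    calc q * (2 * m) = 2 * q * m := by ring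
      _ ≤ M * m := Nat.mul_le_mul_right _ (by omega)
      _ ≤ n := hC
  have hs1 : 2 * m * s ≤ n := Nat.mul_div_le n (2 * m)
  have hs2 : n ≤ 4 * m * s := by
    have h1 : n < 2 * m * (s + 1) := Nat.lt_mul_div_succ n (by omega)
    have h2 : 2 * m * (s + 1) ≤ 2 * m * (2 * s) := Nat.mul_le_mul_left _ (by omega)
    have h3 : 2 * m * (2 * s) = 4 * m * s := by ring
    omega
  obtain ⟨f, hf⟩ := exists_inj C
  obtain ⟨D, hD1, hD2⟩ := slices f (show 1 ≤ s by omega) (2 * m) C hf hs1
  have hsum := exceptional_sum (d := d) (c := c) (K := K) (v := v) (P := P) (fun i => (hD1 i).1) hD2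
  obtain ⟨g, hg1, hg2⟩ := half_good (fun i => (exceptional d c K v P (D i)).card)
  refine ⟨fun i => D (g i), fun i => ⟨(hD1 _).1, ?_⟩, fun i j hij => hD2 _ _ fun h => hij (hg1 h)⟩
  have hcard : (D (g i)).card = s := (hD1 _).2
  have hchoose : ∀ t : ℕ, 2 * t ≤ s → n ^ t ≤ 8 ^ t * t.factorial * m ^ t * s.choose t := by
    intro t ht
    calc n ^ t ≤ (4 * m * s) ^ t := Nat.pow_le_pow_left hs2 t
      _ = 4 ^ t * m ^ t * s ^ t := by rw [Nat.mul_pow, Nat.mul_pow]
      _ ≤ 4 ^ t * m ^ t * (2 ^ t * (t.factorial * s.choose t)) :=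
          Nat.mul_le_mul_left _ (pow_le_choose ht)
      _ = (4 * 2) ^ t * t.factorial * m ^ t * s.choose t := by rw [Nat.mul_pow]; ring
      _ = 8 ^ t * t.factorial * m ^ t * s.choose t := by norm_num
  rcases hM0 P (D (g i)) v hP ((hD1 _).1.trans hCP) (by omega) with h | h
  · rw [hcard] at h
    calc n ^ k ≤ 8 ^ k * k.factorial * m ^ k * s.choose k := hchoose k (by omega)
      _ ≤ 8 ^ k * k.factorial * m ^ k * (M0 * (holes k P (D (g i))).card) := Nat.mul_le_mul_left _ h
      _ = A * (m ^ k * (holes k P (D (g i))).card) := by rw [hA]; ring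
      _ ≤ M * (m ^ k * (holes k P (D (g i))).card) := Nat.mul_le_mul_right _ (by omega)
      _ = M * m ^ k * (holes k P (D (g i))).card := by ring
  · exfalso
    rw [hcard] at h
    set e := (exceptional d c K v P (D (g i))).card with he
    have hpos : 0 < s.choose (d + 1) := Nat.choose_pos (by omega)
    have he0 : 0 < e := by
      rcases Nat.eq_zero_or_pos e with h0 | h0
      · rw [h0] at h
        omega
      · exact h0
    have h1 : m * e ≤ (exceptional d c K v P C).card := (hg2 i).trans hsum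
    have h2 : M * m ^ (d + 1) * e ≤ n ^ (d + 1) := by
      calc M * m ^ (d + 1) * e = M * m ^ d * (m * e) := by ring
        _ ≤ M * m ^ d * (exceptional d c K v P C).card := Nat.mul_le_mul_left _ h1
        _ ≤ n ^ (d + 1) := hE
    have h3 : M * m ^ (d + 1) * e ≤ B * m ^ (d + 1) * e := by
      calc M * m ^ (d + 1) * e ≤ n ^ (d + 1) := h2
        _ ≤ 8 ^ (d + 1) * (d + 1).factorial * m ^ (d + 1) * s.choose (d + 1) :=
            hchoose (d + 1) (by omega)
        _ ≤ 8 ^ (d + 1) * (d + 1).factorial * m ^ (d + 1) * (M0 * e) := Nat.mul_le_mul_left _ h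
        _ = B * m ^ (d + 1) * e := by rw [hB]; ring
    have h4 : 0 < m ^ (d + 1) * e := Nat.mul_pos (Nat.pow_pos hm) he0
    have h5 : B * (m ^ (d + 1) * e) < M * (m ^ (d + 1) * e) := Nat.mul_lt_mul_of_pos_right (by omega) h4
    have h6 : M * (m ^ (d + 1) * e) = M * m ^ (d + 1) * e := by ring
    have h7 : B * (m ^ (d + 1) * e) = B * m ^ (d + 1) * e := by ring
    omega

end Pool.Agent.H70.CC
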