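import Pool.Agent.H70.CC.Flip
import Pool.Agent.H70.CC.Ramsey

/-!
Holes in unions of sets whose simplices contain few scales of numbers of points.
-/

set_option autoImplicit false

namespace Pool.Agent.H70.CC

variable {E : Type*} [AddCommGroup E] [Module ℝ E] [DecidableEq E]

omit [DecidableEq E] in
theorem GenPos.mono {d : ℕ} {A B : Finset E} (h : GenPos d B) (hAB : A ⊆ B) : GenPos d A :=
  fun S hS hc => h S (hS.trans hAB) hc

/-- The numbers of further points of `A` in the simplices spanned by `C` are zero or in one of `c` short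
intervals. -/
def Scales (d c : ℕ) (A C : Finset E) : Prop :=
  ∃ v : Fin c → ℕ, ∀ S ⊆ C, S.card = d + 1 → cnt A S = 0 ∨
    ∃ i, v i ≤ cnt A S ∧ (d + 1) * cnt A S < (d + 3) * v i

theorem Scales.filter {d c : ℕ} {A C : Finset E} (h : Scales d c A C) {R : E → Prop}
    [DecidablePred R] (hR : ∀ S : Finset E, (∀ x ∈ S, R x) →
      ∀ p ∈ convexHull ℝ (S : Set E), R p) : Scales d c (A.filter R) (C.filter R) := by
  classical
  obtain ⟨v, hv⟩ := h
  refine ⟨v, fun S hS hSc => ?_⟩
  have hSR : ∀ x ∈ S, R x := fun x hx => (Finset.mem_filter.1 (hS hx)).2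
  have e : cnt (A.filter R) S = cnt A S := by
    unfold cnt
    congr 1
    ext p
    simp only [Finset.mem_filter, Finset.mem_sdiff]
    constructor
    · rintro ⟨⟨⟨h1, -⟩, h2⟩, h3⟩
      exact ⟨⟨h1, h2⟩, h3⟩
    · rintro ⟨⟨h1, h2⟩, h3⟩
      exact ⟨⟨⟨h1, hR S hSR p h3⟩, h2⟩, h3⟩
  rw [e]
  exact hv S (hS.trans (Finset.filter_subset _ _)) hSc

omit [DecidableEq E] in
theorem carath {d : ℕ} [FiniteDimensional ℝ E] (hd : Module.finrank ℝ E = d) {X : Finset E}
    (hX : d + 1 ≤ X.card) {p : E} (hp : p ∈ convexHull ℝ (X : Set E)) :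
    ∃ S ⊆ X, S.card = d + 1 ∧ p ∈ convexHull ℝ (S : Set E) := by
  rw [convexHull_eq_union] at hp
  simp only [Set.mem_iUnion] at hp
  obtain ⟨t, ht, hai, hpt⟩ := hp
  have htX : t ⊆ X := by exact_mod_cast ht
  have htc : t.card ≤ d + 1 := by
    have := hai.card_le_finrank_succ
    rw [Fintype.card_coe] at this
    have h2 : Module.finrank ℝ (vectorSpan ℝ (Set.range ((↑) : t → E))) ≤ d := by
      rw [← hd]
      exact Submodule.finrank_le _
    omega
  obtain ⟨S, htS, hSX, hSc⟩ := Finset.exists_subsuperset_card_eq htX htc hX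
  exact ⟨S, hSX, hSc, convexHull_mono (by exact_mod_cast htS) hpt⟩

theorem exists_hole {d : ℕ} (hodd : Odd d) [FiniteDimensional ℝ E]
    (hd : Module.finrank ℝ E = d) (c M : ℕ) : ∃ N : ℕ, ∀ A C : Finset E, GenPos d A → C ⊆ A →
      N ≤ C.card → Scales d c A C →
      ∃ T ⊆ C, T.card = M ∧ Cvx T ∧ ∀ p ∈ A, p ∈ convexHull ℝ (T : Set E) → p ∈ T := by
  classical
  obtain ⟨N, hN⟩ := ramsey_values (α := E) (c + 1) (d + 1) (max M (d + 2))
  refine ⟨N, fun A C hA hCA hNC hval => ?_⟩
  obtain ⟨v, hv⟩ := hval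
  have hcol : ∀ S : Finset E, ∃ n : ℕ, n < c + 1 ∧ (S ⊆ C → S.card = d + 1 →
      (n = 0 → cnt A S = 0) ∧ ∀ i : Fin c, n = i.1 + 1 →
        v i ≤ cnt A S ∧ (d + 1) * cnt A S < (d + 3) * v i) := by
    intro S
    by_cases hS : S ⊆ C ∧ S.card = d + 1
    · rcases hv S hS.1 hS.2 with h | ⟨i, hi⟩
      · exact ⟨0, Nat.succ_pos _, fun _ _ => ⟨fun _ => h, fun i hi => by omega⟩⟩
      · refine ⟨i.1 + 1, by omega, fun _ _ => ⟨fun h => by omega, fun i' hi' => ?_⟩⟩
        have : i' = i := Fin.ext (by omega)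
        rw [this]
        exact hi
    · exact ⟨0, Nat.succ_pos _, fun h1 h2 => absurd ⟨h1, h2⟩ hS⟩
  choose χ hχ1 hχ2 using hcol
  obtain ⟨T, hTC, hTc, n, hn⟩ := hN C χ hNC (by
    refine (Finset.card_le_card (t := Finset.range (c + 1)) ?_).trans (Finset.card_range _).le
    intro n hn
    obtain ⟨S, -, rfl⟩ := Finset.mem_image.1 hn
    exact Finset.mem_range.2 (hχ1 S))
  have hTA : T ⊆ A := hTC.trans hCA
  have hTd : d + 2 ≤ T.card := by rw [hTc]; exact le_max_right _ _
  have hn0 : n = 0 := by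
    by_contra hn0
    obtain ⟨U, hU, hUc⟩ := Finset.exists_subset_card_eq hTd
    have hUe : ∀ i ∈ U, (U.erase i).card = d + 1 := fun i hi => by
      rw [Finset.card_erase_of_mem hi, hUc]; rfl
    obtain ⟨i0, hi0⟩ : U.Nonempty := Finset.card_pos.1 (by omega)
    have hnc : n < c + 1 := by
      rw [← hn (U.erase i0) ((Finset.erase_subset _ _).trans hU) (hUe i0 hi0)]
      exact hχ1 _
    refine flip hodd hd hA (hU.trans hTA) hUc (v := v ⟨n - 1, by omega⟩) fun i hi => ?_
    have h1 := (hχ2 (U.erase i) (((Finset.erase_subset _ _).trans hU).trans hTC) (hUe i hi)).2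
      ⟨n - 1, by omega⟩
    refine h1 ?_
    rw [hn (U.erase i) ((Finset.erase_subset _ _).trans hU) (hUe i hi)]
    show n = n - 1 + 1
    omega
  have hfull : ∀ S ⊆ T, S.card = d + 1 → ∀ p ∈ A, p ∈ convexHull ℝ (S : Set E) → p ∈ S := by
    intro S hS hSc p hp hm
    have h1 : cnt A S = 0 := (hχ2 S (hS.trans hTC) hSc).1 ((hn S hS hSc).trans hn0)
    by_contra hpS
    have h2 : p ∈ (A \ S).filter (fun p => p ∈ convexHull ℝ (S : Set E)) :=
      Finset.mem_filter.2 ⟨Finset.mem_sdiff.2 ⟨hp, hpS⟩, hm⟩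
    unfold cnt at h1
    rw [Finset.card_eq_zero] at h1
    rw [h1] at h2
    exact absurd h2 (Finset.notMem_empty p)
  have hcv : Cvx T := by
    intro p hp hm
    obtain ⟨S, hS, hSc, hpS⟩ := carath hd
      (by rw [Finset.card_erase_of_mem hp]; omega) hm
    have := hfull S (hS.trans (Finset.erase_subset _ _)) hSc p (hTA hp) hpS
    exact Finset.notMem_erase p T (hS this)
  obtain ⟨T', hT', hTc'⟩ := Finset.exists_subset_card_eq
    (show M ≤ T.card by rw [hTc]; exact le_max_left _ _)
  refine ⟨T', hT'.trans hTC, hTc', hcv.mono hT', fun p hp hm => ?_⟩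
  have hpT : p ∈ T := by
    obtain ⟨S, hS, hSc, hpS⟩ := carath hd (by omega : d + 1 ≤ T.card)
      (convexHull_mono (by exact_mod_cast hT') hm)
    exact hS (hfull S hS hSc p hp hpS)
  by_contra hpT'
  refine hcv p hpT (convexHull_mono ?_ hm)
  intro x hx
  have hx' : x ∈ T' := by exact_mod_cast hx
  have hxp : x ≠ p := by
    rintro rfl
    exact hpT' hx'
  exact Finset.mem_coe.2 (Finset.mem_erase.2 ⟨hxp, hT' hx'⟩)

theorem union_hole {d : ℕ} (hodd : Odd d) [FiniteDimensional ℝ E]
    (hd : Module.finrank ℝ E = d) (k c : ℕ) : ∀ r : ℕ, ∃ N : ℕ, ∀ (W : Finset E)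
      (C : Fin r → Finset E), GenPos d (W ∪ Finset.univ.biUnion C) →
      (∀ j, Scales d c (W ∪ C j) (C j)) → N ≤ (Finset.univ.biUnion C).card →
      ∃ H, (∃ j, H ⊆ C j) ∧ Hole k (W ∪ Finset.univ.biUnion C) H := by
  classical
  intro r
  induction r with
  | zero =>
    refine ⟨1, fun W C _ _ h => ?_⟩
    simp at h
  | succ r ih =>
    obtain ⟨Nr, hNr⟩ := ih
    obtain ⟨N, hN⟩ := exists_hole hodd hd c (k * (Nr + 1))
    refine ⟨(r + 1) * N + 1, fun W C hP hval hcard => ?_⟩
    obtain ⟨j, hj⟩ : ∃ j, N ≤ (C j).card := by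
      by_contra hno
      push Not at hno
      have h2 : (Finset.univ.biUnion C).card ≤ ∑ j : Fin (r + 1), (C j).card :=
        Finset.card_biUnion_le
      have h3 : ∑ j : Fin (r + 1), (C j).card ≤ (r + 1) * N := by
        have := Finset.sum_le_card_nsmul (Finset.univ : Finset (Fin (r + 1)))
          (fun j => (C j).card) N (fun j _ => (hno j).le)
        simpa using this
      omega
    set P := W ∪ Finset.univ.biUnion C with hPdef
    have hCP : ∀ i, C i ⊆ P := fun i => (Finset.subset_biUnion_of_mem C (Finset.mem_univ i)).trans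
      Finset.subset_union_right
    have hWP : W ⊆ P := Finset.subset_union_left
    obtain ⟨T, hTC, hTc, hcv, hTe⟩ := hN (W ∪ C j) (C j)
      (hP.mono (Finset.union_subset hWP (hCP j))) Finset.subset_union_right hj (hval j)
    set Q := P.filter (fun p => p ∈ convexHull ℝ (T : Set E) ∧ p ∉ T) with hQ
    obtain ⟨f, hf⟩ := exists_inj T
    by_cases hcase : k * (Q.card + 1) ≤ T.card
    · obtain ⟨B, hB, hBk, hBq⟩ := block f k Q.card Q T le_rfl hf hcase
      refine ⟨B, ⟨j, hB.trans hTC⟩, (hB.trans hTC).trans (hCP j), hBk, hcv.mono hB,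
        fun p hp hm => ?_⟩
      have hpT : p ∈ T := by
        by_contra hpT
        exact hBq p (Finset.mem_filter.2 ⟨hp, convexHull_mono (by exact_mod_cast hB) hm, hpT⟩) hm
      by_contra hpB
      refine hcv p hpT (convexHull_mono ?_ hm)
      intro x hx
      have hx' : x ∈ B := by exact_mod_cast hx
      have hxp : x ≠ p := by
        rintro rfl
        exact hpB hx'
      exact Finset.mem_coe.2 (Finset.mem_erase.2 ⟨hxp, hB hx'⟩)
    · set C' : Fin r → Finset E := fun i => (C (j.succAbove i)).filter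
        (fun p => p ∈ convexHull ℝ (T : Set E) ∧ p ∉ T) with hC'
      have hWno : ∀ p ∈ W, p ∈ convexHull ℝ (T : Set E) → p ∈ T := fun p hp hm =>
        hTe p (Finset.mem_union_left _ hp) hm
      have hQe : Q = ∅ ∪ Finset.univ.biUnion C' := by
        ext p
        constructor
        · intro hp
          obtain ⟨h1, h2, h3⟩ := Finset.mem_filter.1 hp
          rcases Finset.mem_union.1 h1 with h4 | h4
          · exact absurd (hWno p h4 h2) h3
          · obtain ⟨i, -, hi⟩ := Finset.mem_biUnion.1 h4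
            have hij : i ≠ j := by
              rintro rfl
              exact h3 (hTe p (Finset.mem_union_right _ hi) h2)
            obtain ⟨i', hi'⟩ := Fin.exists_succAbove_eq hij
            refine Finset.mem_union_right _ (Finset.mem_biUnion.2 ⟨i', Finset.mem_univ _, ?_⟩)
            exact Finset.mem_filter.2 ⟨by rw [hi']; exact hi, h2, h3⟩
        · intro hp
          rcases Finset.mem_union.1 hp with h4 | h4
          · exact absurd h4 (Finset.notMem_empty p)
          · obtain ⟨i, -, hi⟩ := Finset.mem_biUnion.1 h4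
            obtain ⟨h1, h2⟩ := Finset.mem_filter.1 hi
            exact Finset.mem_filter.2 ⟨hCP _ h1, h2⟩
      have hQP : Q ⊆ P := Finset.filter_subset _ _
      have hreg : ∀ X : Finset E, (∀ x ∈ X, x ∈ convexHull ℝ (T : Set E) ∧ x ∉ T) →
          ∀ p ∈ convexHull ℝ (X : Set E), p ∈ convexHull ℝ (T : Set E) ∧ p ∉ T := by
        intro X hX p hp
        have h1 : (X : Set E) ⊆ convexHull ℝ (T : Set E) := fun x hx => (hX x hx).1
        exact ⟨convexHull_min h1 (convex_convexHull ℝ _) hp, fun hpT =>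
          notMem_hull hcv hpT h1 (fun h => (hX p h).2 hpT) hp⟩
      have hval' : ∀ i, Scales d c (∅ ∪ C' i) (C' i) := by
        intro i
        have e : ∅ ∪ C' i = (W ∪ C (j.succAbove i)).filter
            (fun p => p ∈ convexHull ℝ (T : Set E) ∧ p ∉ T) := by
          ext p
          simp only [Finset.mem_filter, Finset.mem_union, Finset.notMem_empty, false_or, hC']
          constructor
          · rintro ⟨h1, h2⟩
            exact ⟨Or.inr h1, h2⟩
          · rintro ⟨h1, h2⟩
            exact ⟨h1.resolve_left fun h => h2.2 (hWno p h h2.1), h2⟩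
        rw [e]
        exact (hval (j.succAbove i)).filter hreg
      have hQc : Nr ≤ (Finset.univ.biUnion C').card := by
        rw [Finset.empty_union] at hQe
        rw [← hQe]
        by_contra hno
        push Not at hno hcase
        rw [hTc] at hcase
        have : k * (Q.card + 1) ≤ k * (Nr + 1) := Nat.mul_le_mul_left k (by omega)
        omega
      obtain ⟨H, ⟨i, hHs⟩, hH1, hH2, hH3, hH4⟩ := hNr ∅ C' (by rw [← hQe]; exact hP.mono hQP) hval' hQc
      rw [← hQe] at hH1 hH4
      refine ⟨H, ⟨j.succAbove i, hHs.trans (Finset.filter_subset _ _)⟩, hH1.trans hQP, hH2, hH3,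
        fun p hp hm => ?_⟩
      obtain ⟨h3, h4⟩ := hreg H (fun x hx => (Finset.mem_filter.1 (hH1 hx)).2) p hm
      exact hH4 p (Finset.mem_filter.2 ⟨hp, h3, h4⟩) hm

end Pool.Agent.H70.CC
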